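import Mathlib

set_option autoImplicit false

namespace Pool.Agent.Helper29

/-- `H` is a virtual retract of `G`: some finite-index subgroup `K` containing `H` admits a
homomorphism onto `H` restricting to the identity on `H`. -/
def IsVirtualRetract {G : Type*} [Group G] (H : Subgroup G) : Prop :=
  ∃ K : Subgroup G, K.FiniteIndex ∧ H ≤ K ∧
    ∃ r : K →* G, (∀ k : K, r k ∈ H) ∧ ∀ k : K, (k : G) ∈ H → r k = k

/-- Property (VRC): every cyclic subgroup is a virtual retract. -/
def VRC (G : Type*) [Group G] : Prop :=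
  ∀ g : G, IsVirtualRetract (Subgroup.zpowers g)

/-- Some positive power of `g` survives in a homomorphism to `ℤ` from a finite-index subgroup. -/
def VS {G : Type*} [Group G] (g : G) : Prop :=
  ∃ K : Subgroup G, K.FiniteIndex ∧ ∃ f : K →* Multiplicative ℤ, ∃ n : ℕ, 0 < n ∧
    ∃ h : g ^ n ∈ K, f ⟨g ^ n, h⟩ ≠ 1

section VSlemmas

variable {G : Type*} [Group G]

lemma mint_pow_ne_one {x : Multiplicative ℤ} (hx : x ≠ 1) {n : ℕ} (hn : 0 < n) : x ^ n ≠ 1 := by
  intro h
  apply hx
  have h1 : (n : ℤ) * Multiplicative.toAdd x = 0 := by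
    have := congrArg Multiplicative.toAdd h
    simpa using this
  have h2 : Multiplicative.toAdd x = 0 := by
    rcases mul_eq_zero.mp h1 with h3 | h3
    · exact absurd (by exact_mod_cast h3) hn.ne'
    · exact h3
  exact Multiplicative.toAdd.injective (by simpa using h2)

lemma mint_ne_one_of_pow {x : Multiplicative ℤ} {n : ℕ} (h : x ^ n ≠ 1) : x ≠ 1 := by
  rintro rfl; simp at h

lemma finiteIndex_comap {G' : Type*} [Group G'] (f : G' →* G) (B : Subgroup G)
    (hB : B.FiniteIndex) : (B.comap f).FiniteIndex := by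
  constructor
  rw [Subgroup.index_comap]
  exact (Subgroup.isFiniteRelIndex_of_finiteIndex (K := f.range)).relIndex_ne_zero

/-- Normal version of the property `VS`. -/
lemma VS.exists_normal {g : G} (h : VS g) : ∃ N : Subgroup G, N.Normal ∧ N.FiniteIndex ∧
    ∃ f : N →* Multiplicative ℤ, ∃ n : ℕ, 0 < n ∧ ∃ h : g ^ n ∈ N, f ⟨g ^ n, h⟩ ≠ 1 := by
  obtain ⟨K, hK, f, n, hn, hg, hf⟩ := h
  have := hK
  refine ⟨K.normalCore, inferInstance, inferInstance,
    f.comp (Subgroup.inclusion K.normalCore_le), ?_⟩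
  have hidx : K.normalCore.index ≠ 0 := Subgroup.FiniteIndex.index_ne_zero
  refine ⟨n * K.normalCore.index, Nat.mul_pos hn (Nat.pos_of_ne_zero hidx), ?_, ?_⟩
  · rw [pow_mul]
    exact Subgroup.pow_index_mem _ _
  · have : (Subgroup.inclusion K.normalCore_le)
        ⟨g ^ (n * K.normalCore.index), by rw [pow_mul]; exact Subgroup.pow_index_mem _ _⟩
        = (⟨g ^ n, hg⟩ : K) ^ K.normalCore.index := by
      apply Subtype.ext
      simp [pow_mul]
    rw [MonoidHom.comp_apply, this, map_pow]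
    exact mint_pow_ne_one hf (Nat.pos_of_ne_zero hidx)

open scoped Classical in
lemma exists_hom_of_normal (N : Subgroup G) [N.Normal] [N.FiniteIndex]
    (f : N →* Multiplicative ℤ) (g : G) (n : ℕ) (hn : g ^ n ∈ N)
    (hf : f ⟨g ^ n, hn⟩ ≠ 1) :
    ∃ F : ↥(Subgroup.zpowers g ⊔ N) →* Multiplicative ℤ,
      F ⟨g, (le_sup_left : _ ≤ Subgroup.zpowers g ⊔ N) (Subgroup.mem_zpowers g)⟩ ≠ 1 := by
  set L : Subgroup G := Subgroup.zpowers g ⊔ N with hL
  have hNL : N ≤ L := le_sup_right
  have hgL : g ∈ L := (le_sup_left : _ ≤ L) (Subgroup.mem_zpowers g)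
  let H : Subgroup L := N.subgroupOf L
  have : H.FiniteIndex := inferInstance
  have : H.Normal := inferInstance
  let e : H ≃* N := Subgroup.subgroupOfEquivOfLe hNL
  let ϕ : H →* Multiplicative ℤ := f.comp e.toMonoidHom
  refine ⟨MonoidHom.transfer ϕ, ?_⟩
  apply mint_ne_one_of_pow (n := n)
  rw [← map_pow]
  set γ : L := (⟨g, hgL⟩ : L) ^ n with hγ
  have hγH : γ ∈ H := by
    rw [Subgroup.mem_subgroupOf]
    simpa [hγ] using hn
  have : Fintype (Quotient (MulAction.orbitRel (Subgroup.zpowers γ) (L ⧸ H))) :=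
    Fintype.ofFinite _
  rw [MonoidHom.transfer_eq_prod_quotient_orbitRel_zpowers_quot]
  have key : ∀ (t : L) (k : ℕ) (hk : t⁻¹ * γ ^ k * t ∈ H),
      ϕ ⟨t⁻¹ * γ ^ k * t, hk⟩ = ϕ ⟨γ, hγH⟩ ^ k := by
    intro t k hk
    have ht : (t : G) ∈ Subgroup.zpowers g ⊔ N := t.2
    rw [Subgroup.mem_sup_of_normal_right] at ht
    obtain ⟨a, ha, b, hb, hab⟩ := ht
    obtain ⟨j, rfl⟩ := Subgroup.mem_zpowers_iff.mp ha
    have h1 : e ⟨t⁻¹ * γ ^ k * t, hk⟩ = (⟨b, hb⟩ : N)⁻¹ * (⟨g ^ n, hn⟩ : N) ^ k * ⟨b, hb⟩ := by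
      apply Subtype.ext
      show (((t⁻¹ * γ ^ k * t : L)) : G) = _
      have hcomm : (g ^ j)⁻¹ * (g ^ n) ^ k * g ^ j = (g ^ n) ^ k := by
        have : Commute (g ^ j) ((g ^ n) ^ k) :=
          ((Commute.refl g).zpow_left j).pow_right n |>.pow_right k
        rw [mul_assoc, ← this.eq, ← mul_assoc]; simp
      simp only [Subgroup.coe_mul, Subgroup.coe_inv, SubmonoidClass.coe_pow, hγ, ← hab, mul_inv_rev]
      calc b⁻¹ * (g ^ j)⁻¹ * (g ^ n) ^ k * (g ^ j * b)
          = b⁻¹ * ((g ^ j)⁻¹ * (g ^ n) ^ k * g ^ j) * b := by group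
        _ = _ := by rw [hcomm]
    have h2 : e ⟨γ, hγH⟩ = (⟨g ^ n, hn⟩ : N) := by
      apply Subtype.ext
      show ((γ : L) : G) = _
      simp [hγ]
    show f (e _) = (f (e _)) ^ k
    rw [h1, h2, map_mul, map_mul, map_inv, map_pow, mul_comm, ← mul_assoc, mul_inv_cancel, one_mul]
  have hone : ϕ ⟨γ, hγH⟩ = f ⟨g ^ n, hn⟩ := by
    show f (e _) = _
    congr 1
  simp_rw [key]
  rw [Finset.prod_pow_eq_pow_sum, hone]
  apply mint_pow_ne_one hf
  apply Finset.sum_pos
  · intro q _
    refine Function.IsPeriodicPt.minimalPeriod_pos Nat.one_pos ?_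
    show γ • q.out = q.out
    induction q.out using QuotientGroup.induction_on with
    | H z =>
      show ((γ * z : L) : L ⧸ H) = (z : L ⧸ H)
      rw [eq_comm, QuotientGroup.eq]
      have := Subgroup.Normal.conj_mem inferInstance γ hγH z⁻¹
      simpa [mul_assoc] using this
  · exact ⟨Quotient.mk _ ((1 : L) : L ⧸ H), Finset.mem_univ _⟩

/-- A homomorphism to `ℤ` not killing `g`, defined on a finite-index subgroup containing `g`,
makes the cyclic group generated by `g` a virtual retract. -/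
lemma isVirtualRetract_of_hom {g : G} (L : Subgroup G) [L.FiniteIndex] (hg : g ∈ L)
    (F : L →* Multiplicative ℤ) (hF : F ⟨g, hg⟩ ≠ 1) :
    IsVirtualRetract (Subgroup.zpowers g) := by
  classical
  set a : Multiplicative ℤ := F ⟨g, hg⟩ with ha
  set s : ℤ := Multiplicative.toAdd a with hs
  have hs0 : s ≠ 0 := by
    intro h
    apply hF
    exact Multiplicative.toAdd.injective h
  let Z : Subgroup (Multiplicative ℤ) := Subgroup.zpowers a
  have hZ : Z.FiniteIndex := by
    have h1 : (AddSubgroup.zmultiples s).index ≠ 0 := by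
      rw [Int.index_zmultiples]
      simpa using hs0
    constructor
    have : Z.index = (AddSubgroup.zmultiples s).index := by
      have : Z = AddSubgroup.toSubgroup (AddSubgroup.zmultiples s) := by
        ext x
        constructor
        · rintro ⟨k, rfl⟩
          exact ⟨k, by simp [hs]⟩
        · rintro ⟨k, hk⟩
          refine ⟨k, ?_⟩
          exact Multiplicative.toAdd.injective (by simpa [hs] using hk)
      rw [this]
      rfl
    rw [this]
    exact h1
  have hmem : ∀ x : L, x ∈ Z.comap F → ∃ k : ℤ, F x = a ^ k := by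
    intro x hx
    obtain ⟨k, hk⟩ := Subgroup.mem_zpowers_iff.mp hx
    exact ⟨k, hk.symm⟩
  have hinj : ∀ k l : ℤ, a ^ k = a ^ l → k = l := by
    intro k l h
    have h1 : k * s = l * s := by
      have := congrArg Multiplicative.toAdd h
      simpa [hs] using this
    exact mul_right_cancel₀ hs0 h1
  let K : Subgroup G := (Z.comap F).map L.subtype
  have hK : K.FiniteIndex := by
    constructor
    rw [Subgroup.index_map_subtype]
    refine mul_ne_zero ?_ Subgroup.FiniteIndex.index_ne_zero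
    exact (finiteIndex_comap F Z hZ).index_ne_zero
  have hKL : K ≤ L := Subgroup.map_subtype_le _
  have hK2 : ∀ x : K, ∃ k : ℤ, F ⟨x, hKL x.2⟩ = a ^ k := by
    rintro ⟨x, ⟨y, hy, hyx⟩⟩
    obtain ⟨k, hk⟩ := hmem y hy
    refine ⟨k, ?_⟩
    rw [← hk]
    congr 1
    exact Subtype.ext hyx.symm
  choose e he using hK2
  refine ⟨K, hK, ?_, ?_⟩
  · rw [Subgroup.zpowers_le]
    exact ⟨⟨g, hg⟩, Subgroup.mem_zpowers _, rfl⟩
  · refine ⟨{ toFun := fun x => g ^ e x, map_one' := ?_, map_mul' := ?_ }, ?_, ?_⟩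
    · have : e 1 = 0 := by
        apply hinj
        rw [← he, zpow_zero]
        exact map_one F
      rw [this, zpow_zero]
    · intro x y
      have : e (x * y) = e x + e y := by
        apply hinj
        rw [← he, zpow_add, ← he, ← he, ← map_mul]
        rfl
      rw [this, zpow_add]
    · intro k
      exact Subgroup.mem_zpowers_iff.mpr ⟨e k, rfl⟩
    · intro k hk
      obtain ⟨j, hj⟩ := Subgroup.mem_zpowers_iff.mp hk
      show g ^ e k = _
      have : e k = j := by
        apply hinj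
        rw [← he]
        have : (⟨(k : G), hKL k.2⟩ : L) = ⟨g, hg⟩ ^ j := by
          apply Subtype.ext
          rw [← hj]; rfl
        rw [this, map_zpow]
      rw [this, hj]

/-- `VS g` implies that `⟨g⟩` is a virtual retract. -/
lemma VS.isVirtualRetract {g : G} (h : VS g) : IsVirtualRetract (Subgroup.zpowers g) := by
  obtain ⟨N, hN, hNf, f, n, _, hn, hf⟩ := h.exists_normal
  obtain ⟨F, hF⟩ := exists_hom_of_normal N f g n hn hf
  have : (Subgroup.zpowers g ⊔ N).FiniteIndex :=
    Subgroup.finiteIndex_of_le (le_sup_right : N ≤ _)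
  exact isVirtualRetract_of_hom _ _ F hF

/-- Pulling back `VS` along a homomorphism from a finite-index subgroup. -/
lemma VS.of_hom {A : Type*} [Group A] {g : G} (K : Subgroup G) [K.FiniteIndex] (h : K →* A)
    (n : ℕ) (hn0 : 0 < n) (hn : g ^ n ∈ K) (hA : VS (h ⟨g ^ n, hn⟩)) : VS g := by
  obtain ⟨B, hB, f, m, hm, hmB, hf⟩ := hA
  refine ⟨(B.comap h).map K.subtype, ?_, ?_⟩
  · constructor
    rw [Subgroup.index_map_subtype]
    refine mul_ne_zero ?_ Subgroup.FiniteIndex.index_ne_zero
    exact (finiteIndex_comap h B hB).index_ne_zero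
  · let e : (B.comap h) ≃* ((B.comap h).map K.subtype) :=
      (B.comap h).equivMapOfInjective K.subtype K.subtype_injective
    let q : (B.comap h) →* B := (h.comp (B.comap h).subtype).codRestrict B (fun x => x.2)
    refine ⟨(f.comp q).comp e.symm.toMonoidHom, n * m, Nat.mul_pos hn0 hm, ?_, ?_⟩
    · refine ⟨⟨g ^ n, hn⟩ ^ m, ?_, ?_⟩
      · show h _ ∈ B
        rw [map_pow]; exact hmB
      · simp [pow_mul]
    · have hx : (⟨g ^ n, hn⟩ : K) ^ m ∈ B.comap h := by
        show h _ ∈ B
        rw [map_pow]; exact hmB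
      have h1 : ∀ (y : ((B.comap h).map K.subtype)), (y : G) = g ^ (n * m) →
          e.symm y = ⟨⟨g ^ n, hn⟩ ^ m, hx⟩ := by
        intro y hy
        rw [MulEquiv.symm_apply_eq]
        apply Subtype.ext
        rw [hy]
        simp [e, pow_mul]
      show f (q (e.symm _)) ≠ 1
      rw [h1 _ rfl]
      convert hf using 2
      apply Subtype.ext
      show h (⟨g ^ n, hn⟩ ^ m) = _
      rw [map_pow]

/-- Conjugation invariance. -/
lemma IsVirtualRetract.conj {g : G} (h : IsVirtualRetract (Subgroup.zpowers g)) (x : G) :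
    IsVirtualRetract (Subgroup.zpowers (x * g * x⁻¹)) := by
  obtain ⟨K, hK, hle, r, hr1, hr2⟩ := h
  let c : G ≃* G := MulAut.conj x
  have hz : ∀ y : G, y ∈ Subgroup.zpowers (x * g * x⁻¹) ↔ x⁻¹ * y * x ∈ Subgroup.zpowers g := by
    intro y
    constructor
    · intro hy
      obtain ⟨k, rfl⟩ := Subgroup.mem_zpowers_iff.mp hy
      refine Subgroup.mem_zpowers_iff.mpr ⟨k, ?_⟩
      rw [conj_zpow]; group
    · intro hy
      obtain ⟨k, hk⟩ := Subgroup.mem_zpowers_iff.mp hy
      refine Subgroup.mem_zpowers_iff.mpr ⟨k, ?_⟩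
      rw [conj_zpow, hk]; group
  let K' : Subgroup G := K.comap (MulAut.conj x⁻¹).toMonoidHom
  have hK' : K'.FiniteIndex := finiteIndex_comap _ _ hK
  have hmem : ∀ y : G, y ∈ K' ↔ x⁻¹ * y * x ∈ K := by
    intro y
    show (MulAut.conj x⁻¹) y ∈ K ↔ _
    simp [MulAut.conj_apply]
  let q : K' →* K := (((MulAut.conj x⁻¹).toMonoidHom).comp K'.subtype).codRestrict K
    (fun y => y.2)
  refine ⟨K', hK', ?_, (c.toMonoidHom.comp r).comp q, ?_, ?_⟩
  · intro y hy
    rw [hmem]
    exact hle ((hz y).mp hy)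
  · intro k
    rw [hz]
    have : x⁻¹ * (c (r (q k))) * x = r (q k) := by
      simp only [c, MulAut.conj_apply]; group
    show x⁻¹ * (c (r (q k))) * x ∈ _
    rw [this]
    exact hr1 _
  · intro k hk
    have h1 : ((q k : K) : G) = x⁻¹ * k * x := by
      show (MulAut.conj x⁻¹) (k : G) = _
      simp [MulAut.conj_apply]
    have h2 : r (q k) = q k := by
      apply hr2
      rw [h1]
      exact (hz _).mp hk
    show c (r (q k)) = k
    rw [h2, h1]
    simp only [c, MulAut.conj_apply]; group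

/-- A homomorphism to a finite group that is injective on `⟨g⟩` makes it a virtual retract. -/
lemma isVirtualRetract_of_finite {D : Type*} [Group D] [Finite D] {g : G} (π : G →* D)
    (h : ∀ k : ℤ, π (g ^ k) = 1 → g ^ k = 1) : IsVirtualRetract (Subgroup.zpowers g) := by
  let Z := Subgroup.zpowers g
  let ρ : Z →* D := π.comp Z.subtype
  have hρ : Function.Injective ρ := by
    rw [injective_iff_map_eq_one]
    rintro ⟨y, hy⟩ h1
    obtain ⟨k, rfl⟩ := Subgroup.mem_zpowers_iff.mp hy
    exact Subtype.ext (h k h1)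
  let e : Z ≃* ρ.range := MonoidHom.ofInjective hρ
  let K : Subgroup G := ρ.range.comap π
  have hK : K.FiniteIndex := finiteIndex_comap _ _ inferInstance
  let q : K →* ρ.range := (π.comp K.subtype).codRestrict ρ.range (fun x => x.2)
  refine ⟨K, hK, ?_, (Z.subtype.comp e.symm.toMonoidHom).comp q, ?_, ?_⟩
  · intro y hy
    exact ⟨⟨y, hy⟩, rfl⟩
  · intro k
    exact (e.symm (q k)).2
  · intro k hk
    have : e.symm (q k) = ⟨k, hk⟩ := by
      rw [MulEquiv.symm_apply_eq]
      rfl
    show ((e.symm (q k) : Z) : G) = k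
    rw [this]

end VSlemmas

end Pool.Agent.Helper29
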