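import Mathlib
import Pool.Agent.Helper29.VRC.Basic

set_option autoImplicit false

namespace Pool.Agent.Helper29

section Facts

variable {G : Type*} [Group G]

lemma finiteIndex_map_subtype (K : Subgroup G) (hK : K.FiniteIndex) (M : Subgroup K)
    (hM : M.FiniteIndex) : (M.map K.subtype).FiniteIndex := by
  constructor
  rw [Subgroup.index_map_subtype]
  exact mul_ne_zero hM.index_ne_zero hK.index_ne_zero

lemma mem_map_subtype_iff (K : Subgroup G) (M : Subgroup K) (x : G) :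
    x ∈ M.map K.subtype ↔ ∃ h : x ∈ K, (⟨x, h⟩ : K) ∈ M := by
  constructor
  · rintro ⟨y, hy, rfl⟩
    exact ⟨y.2, hy⟩
  · rintro ⟨h, hx⟩
    exact ⟨⟨x, h⟩, hx, rfl⟩

/-- Separation by a homomorphism from a finite-index subgroup to a finite group. -/
lemma exists_normal_of_finite (K : Subgroup G) (hK : K.FiniteIndex) {D : Type*} [Group D]
    [Finite D] (ρ : K →* D) (g : G) (hg : ∀ h : g ∈ K, ρ ⟨g, h⟩ ≠ 1) :
    ∃ N : Subgroup G, N.Normal ∧ N.FiniteIndex ∧ g ∉ N := by
  have h1 : (ρ.ker).FiniteIndex := by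
    rw [← MonoidHom.comap_bot]
    exact finiteIndex_comap _ _ inferInstance
  have h2 := finiteIndex_map_subtype K hK ρ.ker h1
  refine ⟨(ρ.ker.map K.subtype).normalCore, inferInstance, inferInstance, fun h => ?_⟩
  have h3 := Subgroup.normalCore_le _ h
  rw [mem_map_subtype_iff] at h3
  obtain ⟨h4, h5⟩ := h3
  exact hg h4 h5

/-- From a virtual retraction onto an infinite cyclic group, a functional with value one. -/
lemma IsVirtualRetract.functional {a : G} (ha : ¬ IsOfFinOrder a)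
    (h : IsVirtualRetract (Subgroup.zpowers a)) :
    ∃ K : Subgroup G, K.FiniteIndex ∧ ∃ hK : a ∈ K, ∃ f : K →* Multiplicative ℤ,
      f ⟨a, hK⟩ = Multiplicative.ofAdd 1 := by
  obtain ⟨K, hK, hle, r, hr1, hr2⟩ := h
  have haK : a ∈ K := hle (Subgroup.mem_zpowers a)
  have hinj : Function.Injective (fun n : ℤ => a ^ n) :=
    injective_zpow_iff_not_isOfFinOrder.mpr ha
  have hex : ∀ k : K, ∃ n : ℤ, a ^ n = r k := fun k => Subgroup.mem_zpowers_iff.mp (hr1 k)
  choose e he using hex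
  refine ⟨K, hK, haK, ⟨⟨fun k => Multiplicative.ofAdd (e k), ?_⟩, ?_⟩, ?_⟩
  · have : e 1 = 0 := hinj (by show a ^ _ = a ^ _; rw [he, map_one, zpow_zero])
    rw [this]; rfl
  · intro x y
    have : e (x * y) = e x + e y :=
      hinj (by show a ^ _ = a ^ _; rw [zpow_add, he, he, he, map_mul])
    show Multiplicative.ofAdd (e (x * y)) = _
    rw [this]; rfl
  · have : e ⟨a, haK⟩ = 1 := by
      apply hinj
      show a ^ _ = a ^ _
      rw [he, zpow_one]
      exact hr2 ⟨a, haK⟩ (Subgroup.mem_zpowers a)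
    show Multiplicative.ofAdd (e ⟨a, haK⟩) = _
    rw [this]

/-- A group with (VRC) is residually finite. -/
lemma VRC.resFinite (hG : VRC G) (g : G) (hg : g ≠ 1) :
    ∃ N : Subgroup G, N.Normal ∧ N.FiniteIndex ∧ g ∉ N := by
  by_cases h : IsOfFinOrder g
  · obtain ⟨K, hK, hle, r, hr1, hr2⟩ := hG g
    have hfin : Finite (Subgroup.zpowers g) := h.finite_zpowers.to_subtype
    refine exists_normal_of_finite K hK (r.codRestrict (Subgroup.zpowers g) hr1) g ?_
    intro h1 h2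
    have h3 : r ⟨g, h1⟩ = 1 := congrArg Subtype.val h2
    rw [hr2 ⟨g, h1⟩ (Subgroup.mem_zpowers g)] at h3
    exact hg h3
  · obtain ⟨K, hK, hgK, f, hf⟩ := (hG g).functional h
    refine exists_normal_of_finite K hK
      ((AddMonoidHom.toMultiplicative (Int.castAddHom (ZMod 2))).comp f) g ?_
    intro h1 h2
    rw [MonoidHom.comp_apply, hf] at h2
    have h3 : ((1 : ℤ) : ZMod 2) = 0 := congrArg Multiplicative.toAdd h2
    simp at h3

lemma VRC.avoid (hG : VRC G) (S : Set G) (hS : S.Finite) :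
    ∃ N : Subgroup G, N.Normal ∧ N.FiniteIndex ∧ ∀ x ∈ S, x ≠ 1 → x ∉ N := by
  induction S, hS using Set.Finite.induction_on with
  | empty => exact ⟨⊤, inferInstance, inferInstance, by simp⟩
  | @insert a S _ _ ih =>
    obtain ⟨N, hN, hNf, hNS⟩ := ih
    by_cases ha : a = 1
    · refine ⟨N, hN, hNf, fun x hx hx1 => ?_⟩
      rcases hx with rfl | hx
      · exact absurd ha hx1
      · exact hNS x hx hx1
    · obtain ⟨M, hM, hMf, hMa⟩ := hG.resFinite a ha
      refine ⟨N ⊓ M, inferInstance, inferInstance, fun x hx hx1 hxN => ?_⟩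
      rcases hx with rfl | hx
      · exact hMa hxN.2
      · exact hNS x hx hx1 hxN.1

/-- Cyclic subgroups are separable in a group with (VRC). -/
lemma VRC.separable (hG : VRC G) (a b : G) (hb : b ∉ Subgroup.zpowers a) :
    ∃ N : Subgroup G, N.Normal ∧ N.FiniteIndex ∧ ∀ k : ℤ, a ^ k * b ∉ N := by
  obtain ⟨K, hK, hle, r, hr1, hr2⟩ := hG a
  have haK : ∀ k : ℤ, a ^ k ∈ K := fun k => hle (Subgroup.mem_zpowers_iff.mpr ⟨k, rfl⟩)
  by_cases hbK : b ∈ K
  · have hy : b * (r ⟨b, hbK⟩)⁻¹ ≠ 1 := by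
      intro h
      rw [mul_inv_eq_one] at h
      apply hb
      rw [h]
      exact hr1 _
    obtain ⟨N₁, hN₁, hN₁f, hyN⟩ := hG.resFinite _ hy
    let M : Subgroup K := N₁.subgroupOf K ⊓ N₁.comap r
    have hMf : M.FiniteIndex := by
      have h1 : (N₁.comap r).FiniteIndex := finiteIndex_comap _ _ hN₁f
      have h2 : (N₁.subgroupOf K).FiniteIndex := inferInstance
      exact (inferInstance : (N₁.subgroupOf K ⊓ N₁.comap r).FiniteIndex)
    have hMf' := finiteIndex_map_subtype K hK M hMf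
    refine ⟨(M.map K.subtype).normalCore, inferInstance, inferInstance, fun k hk => ?_⟩
    have h3 := Subgroup.normalCore_le _ hk
    rw [mem_map_subtype_iff] at h3
    obtain ⟨h4, h5, h6⟩ := h3
    have h5' : a ^ k * b ∈ N₁ := h5
    have h6' : r ⟨a ^ k * b, h4⟩ ∈ N₁ := h6
    have h7 : r ⟨a ^ k * b, h4⟩ = a ^ k * r ⟨b, hbK⟩ := by
      have : (⟨a ^ k * b, h4⟩ : K) = ⟨a ^ k, haK k⟩ * ⟨b, hbK⟩ := rfl
      rw [this, map_mul, hr2 ⟨a ^ k, haK k⟩ (Subgroup.mem_zpowers_iff.mpr ⟨k, rfl⟩)]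
    rw [h7] at h6'
    have h8 := hN₁.conj_mem _ (N₁.mul_mem h5' (N₁.inv_mem h6')) (a ^ (-k))
    apply hyN
    convert h8 using 1
    rw [zpow_neg]
    group
  · refine ⟨K.normalCore, inferInstance, inferInstance, fun k hk => hbK ?_⟩
    have h1 := Subgroup.normalCore_le _ hk
    have h2 := K.mul_mem (K.inv_mem (haK k)) h1
    simpa using h2

/-- Separation of finitely many elements from a cyclic subgroup. -/
lemma VRC.separable_finite (hG : VRC G) (a : G) (S : Set G) (hS : S.Finite) :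
    ∃ N : Subgroup G, N.Normal ∧ N.FiniteIndex ∧
      ∀ b ∈ S, b ∉ Subgroup.zpowers a → ∀ k : ℤ, a ^ k * b ∉ N := by
  induction S, hS using Set.Finite.induction_on with
  | empty => exact ⟨⊤, inferInstance, inferInstance, by simp⟩
  | @insert b S _ _ ih =>
    obtain ⟨N, hN, hNf, hNS⟩ := ih
    by_cases hb : b ∈ Subgroup.zpowers a
    · refine ⟨N, hN, hNf, fun x hx hx1 => ?_⟩
      rcases hx with rfl | hx
      · exact absurd hb hx1
      · exact hNS x hx hx1
    · obtain ⟨M, hM, hMf, hMa⟩ := hG.separable a b hb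
      refine ⟨N ⊓ M, inferInstance, inferInstance, fun x hx hx1 k hxN => ?_⟩
      rcases hx with rfl | hx
      · exact hMa k hxN.2
      · exact hNS x hx hx1 k hxN.1

/-- Potency of elements of infinite order in a group with (VRC). -/
lemma VRC.potent (hG : VRC G) {a : G} (ha : ¬ IsOfFinOrder a) (N₀ : Subgroup G)
    [N₀.Normal] [N₀.FiniteIndex] :
    ∃ l : ℕ, 0 < l ∧ ∀ t : ℕ, 0 < t → ∃ N : Subgroup G, N.Normal ∧ N.FiniteIndex ∧ N ≤ N₀ ∧
      ∀ k : ℤ, a ^ k ∈ N ↔ ((l * t : ℕ) : ℤ) ∣ k := by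
  obtain ⟨K, hK, haK, f, hf⟩ := (hG a).functional ha
  let L : Subgroup G := K.normalCore ⊓ N₀
  have hLK : L ≤ K := inf_le_left.trans K.normalCore_le
  have hLn : L.Normal := inferInstance
  have hLf : L.FiniteIndex := inferInstance
  -- the exponents of `a` in `L`
  let E : AddSubgroup ℤ :=
    { carrier := {k | a ^ k ∈ L}
      zero_mem' := by simp [L.one_mem]
      add_mem' := fun {x y} hx hy => by
        show a ^ (x + y) ∈ L
        rw [zpow_add]; exact L.mul_mem hx hy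
      neg_mem' := fun {x} hx => by
        show a ^ (-x) ∈ L
        rw [zpow_neg]; exact L.inv_mem hx }
  obtain ⟨l₀, hl₀⟩ := Int.subgroup_cyclic E
  have hE : ∀ k : ℤ, a ^ k ∈ L ↔ l₀ ∣ k := by
    intro k
    have : a ^ k ∈ L ↔ k ∈ E := Iff.rfl
    rw [this, hl₀, ← AddSubgroup.zmultiples_eq_closure, Int.mem_zmultiples_iff]
  have hl0 : l₀ ≠ 0 := by
    intro h0
    have h1 : a ^ ((L.index : ℕ) : ℤ) ∈ L := by
      rw [zpow_natCast]; exact L.pow_index_mem a
    rw [hE, h0, zero_dvd_iff] at h1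
    exact hLf.index_ne_zero (by exact_mod_cast h1)
  have hconj : ∀ y : G, y * a ^ l₀ * y⁻¹ ∈ L := fun y =>
    hLn.conj_mem _ ((hE l₀).mpr dvd_rfl) y
  let s : G → ℤ := fun y => Multiplicative.toAdd (f ⟨y * a ^ l₀ * y⁻¹, hLK (hconj y)⟩)
  have hs1 : s 1 = l₀ := by
    have : (⟨1 * a ^ l₀ * 1⁻¹, hLK (hconj 1)⟩ : K) = ⟨a, haK⟩ ^ l₀ := by
      apply Subtype.ext; simp
    simp only [s]
    rw [this, map_zpow, hf]
    simp
  obtain ⟨d, hd⟩ := Int.subgroup_cyclic (AddSubgroup.closure (Set.range s))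
  have hd' : ∀ k, k ∈ AddSubgroup.closure (Set.range s) ↔ d ∣ k := by
    intro k
    rw [hd, ← AddSubgroup.zmultiples_eq_closure, Int.mem_zmultiples_iff]
  have hd0 : d ≠ 0 := by
    intro h0
    have h1 : s 1 ∈ AddSubgroup.closure (Set.range s) := AddSubgroup.subset_closure ⟨1, rfl⟩
    rw [hd', h0, zero_dvd_iff, hs1] at h1
    exact hl0 h1
  refine ⟨l₀.natAbs, Int.natAbs_pos.mpr hl0, fun t ht => ?_⟩
  let Z : Subgroup (Multiplicative ℤ) :=
    AddSubgroup.toSubgroup (AddSubgroup.zmultiples (d * t))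
  have hZmem : ∀ x : Multiplicative ℤ, x ∈ Z ↔ d * t ∣ Multiplicative.toAdd x := by
    intro x
    have : x ∈ Z ↔ Multiplicative.toAdd x ∈ AddSubgroup.zmultiples (d * t : ℤ) := Iff.rfl
    rw [this, Int.mem_zmultiples_iff]
  have hdt : d * t ≠ 0 := mul_ne_zero hd0 (by exact_mod_cast ht.ne')
  have hZ : Z.FiniteIndex := by
    constructor
    have : Z.index = (AddSubgroup.zmultiples (d * t : ℤ)).index := rfl
    rw [this, Int.index_zmultiples]
    simpa using hdt
  let M : Subgroup G := (Z.comap f).map K.subtype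
  have hM : M.FiniteIndex := finiteIndex_map_subtype K hK _ (finiteIndex_comap _ _ hZ)
  have hMmem : ∀ x (hx : x ∈ K), x ∈ M ↔ d * t ∣ Multiplicative.toAdd (f ⟨x, hx⟩) := by
    intro x hx
    rw [mem_map_subtype_iff]
    constructor
    · rintro ⟨_, h⟩; exact (hZmem _).mp h
    · intro h; exact ⟨hx, (hZmem _).mpr h⟩
  refine ⟨L ⊓ M.normalCore, inferInstance, inferInstance, inf_le_left.trans inf_le_right, ?_⟩
  intro k
  have hkey : ∀ j : ℤ, a ^ (l₀ * j) ∈ M.normalCore ↔ (t : ℤ) ∣ j := by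
    intro j
    have h1 : ∀ y : G, y * a ^ (l₀ * j) * y⁻¹ = (y * a ^ l₀ * y⁻¹) ^ j := by
      intro y; rw [conj_zpow, zpow_mul]
    have h2 : ∀ y : G, y * a ^ (l₀ * j) * y⁻¹ ∈ M ↔ d * t ∣ j * s y := by
      intro y
      have hyL : y * a ^ (l₀ * j) * y⁻¹ ∈ L := by rw [h1]; exact L.zpow_mem (hconj y) j
      rw [hMmem _ (hLK hyL)]
      have : (⟨y * a ^ (l₀ * j) * y⁻¹, hLK hyL⟩ : K) = ⟨y * a ^ l₀ * y⁻¹, hLK (hconj y)⟩ ^ j := by
        apply Subtype.ext
        exact h1 y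
      rw [this, map_zpow]
      simp [s]
    constructor
    · intro h
      have h3 : ∀ y : G, d * t ∣ j * s y := fun y => (h2 y).mp (h y)
      let F : AddSubgroup ℤ :=
        { carrier := {x | d * t ∣ j * x}
          zero_mem' := by simp
          add_mem' := fun {x y} hx hy => by
            show d * t ∣ j * (x + y)
            rw [mul_add]; exact dvd_add hx hy
          neg_mem' := fun {x} hx => by
            show d * t ∣ j * (-x)
            rw [mul_neg]; exact (dvd_neg).mpr hx }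
      have h4 : AddSubgroup.closure (Set.range s) ≤ F := by
        rw [AddSubgroup.closure_le]
        rintro _ ⟨y, rfl⟩
        exact h3 y
      have h5 : d * t ∣ j * d := h4 ((hd' d).mpr dvd_rfl)
      rw [mul_comm j d] at h5
      exact (mul_dvd_mul_iff_left hd0).mp h5
    · intro h y
      rw [h2]
      have h6 : d ∣ s y := (hd' _).mp (AddSubgroup.subset_closure ⟨y, rfl⟩)
      obtain ⟨u, hu⟩ := h6
      obtain ⟨v, hv⟩ := h
      exact ⟨u * v, by rw [hu, hv]; ring⟩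
  have hdvd : ((l₀.natAbs * t : ℕ) : ℤ) ∣ k ↔ l₀ * t ∣ k := by
    rw [Nat.cast_mul]
    constructor
    · rintro ⟨u, rfl⟩
      rcases Int.natAbs_eq l₀ with h | h
      · exact ⟨u, by rw [← h]⟩
      · refine ⟨-u, ?_⟩
        conv_rhs => rw [h]
        ring
    · rintro ⟨u, rfl⟩
      rcases Int.natAbs_eq l₀ with h | h
      · exact ⟨u, by rw [← h]⟩
      · refine ⟨-u, ?_⟩
        conv_lhs => rw [h]
        ring
  rw [hdvd]
  constructor
  · rintro ⟨h1, h2⟩
    obtain ⟨j, rfl⟩ := (hE k).mp h1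
    exact mul_dvd_mul_left _ ((hkey j).mp h2)
  · rintro ⟨u, rfl⟩
    rw [mul_assoc]
    exact ⟨(hE _).mpr ⟨_, rfl⟩, (hkey _).mpr ⟨u, rfl⟩⟩

end Facts

section Compat

variable {ι : Type*} [Finite ι] {G : ι → Type*} [∀ i, Group (G i)]

/-- Compatible choice of finite-index normal subgroups. -/
lemma compat (hG : ∀ i, VRC (G i)) (a : ∀ i, G i)
    (ho : (∀ i, ¬ IsOfFinOrder (a i)) ∨ ∃ m : ℕ, 0 < m ∧ ∀ i, orderOf (a i) = m)
    (N₀ : ∀ i, Subgroup (G i)) (h₀ : ∀ i, (N₀ i).Normal) (h₀' : ∀ i, (N₀ i).FiniteIndex) :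
    ∃ (m : ℕ) (N : ∀ i, Subgroup (G i)), 0 < m ∧
      ((∀ i, ¬ IsOfFinOrder (a i)) ∨ ∀ i, a i ^ m = 1) ∧
      ∀ i, (N i).Normal ∧ (N i).FiniteIndex ∧
      N i ≤ N₀ i ∧ ∀ k : ℤ, a i ^ k ∈ N i ↔ (m : ℤ) ∣ k := by
  classical
  have := Fintype.ofFinite ι
  rcases ho with ho | ⟨m, hm, ho⟩
  · choose l hl hN using fun i => (hG i).potent (ho i) (N₀ i)
    have ht : ∀ i, 0 < ∏ j ∈ Finset.univ.erase i, l j := fun i =>
      Finset.prod_pos (fun j _ => hl j)
    choose N h1 h2 h3 h4 using fun i => hN i _ (ht i)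
    refine ⟨∏ j, l j, N, Finset.prod_pos (fun j _ => hl j), Or.inl ho,
      fun i => ⟨h1 i, h2 i, h3 i, ?_⟩⟩
    intro k
    rw [h4, Finset.mul_prod_erase Finset.univ l (Finset.mem_univ i)]
  · have hex : ∀ i, ∃ N : Subgroup (G i), N.Normal ∧ N.FiniteIndex ∧
        ∀ x ∈ (Subgroup.zpowers (a i) : Set (G i)), x ≠ 1 → x ∉ N := by
      intro i
      refine (hG i).avoid _ ?_
      have hfo : IsOfFinOrder (a i) := by
        rw [← orderOf_pos_iff, ho i]; exact hm
      exact hfo.finite_zpowers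
    choose M h1 h2 h3 using hex
    refine ⟨m, fun i => N₀ i ⊓ M i, hm, Or.inr (fun i => by rw [← ho i]; exact pow_orderOf_eq_one _),
      fun i => ⟨inferInstance, inferInstance, inf_le_left, ?_⟩⟩
    intro k
    rw [← ho i, orderOf_dvd_iff_zpow_eq_one]
    constructor
    · rintro ⟨_, hk⟩
      by_contra hne
      exact h3 i _ (Subgroup.mem_zpowers_iff.mpr ⟨k, rfl⟩) hne hk
    · intro h
      rw [h]; exact Subgroup.one_mem _

end Compat

end Pool.Agent.Helper29
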