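import Mathlib
import Pool.Agent.Helper29.VRC.Basic

set_option autoImplicit false

namespace Pool.Agent.Helper29

section Stab

variable {G Ω A : Type*} [Group G] [Finite Ω] [Group A]

lemma stab_hom (Θ : G →* Equiv.Perm (Ω × A))
    (hΘ : ∀ g ω a, Θ g (ω, a) = ((Θ g (ω, 1)).1, (Θ g (ω, 1)).2 * a)) (ω : Ω) :
    ∃ K : Subgroup G, K.FiniteIndex ∧ (∀ g : G, g ∈ K ↔ (Θ g (ω, 1)).1 = ω) ∧
      ∃ h : K →* A, ∀ g : K, h g = (Θ (g : G) (ω, 1)).2 := by
  let act : MulAction G Ω :=
    { smul := fun g ω => (Θ g (ω, 1)).1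
      one_smul := fun ω => by show (Θ 1 (ω, 1)).1 = ω; simp
      mul_smul := fun g g' ω => by
        show (Θ (g * g') (ω, 1)).1 = (Θ g ((Θ g' (ω, 1)).1, 1)).1
        rw [map_mul, Equiv.Perm.mul_apply]
        conv_lhs => rw [← Prod.mk.eta (p := Θ g' (ω, 1)), hΘ g] }
  have hsm : ∀ (g : G) (ω : Ω), g • ω = (Θ g (ω, 1)).1 := fun _ _ => rfl
  refine ⟨MulAction.stabilizer G ω, ?_, fun g => Iff.rfl, ?_⟩
  · have : Finite (G ⧸ MulAction.stabilizer G ω) :=
      Finite.of_equiv _ (MulAction.orbitEquivQuotientStabilizer G ω)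
    exact Subgroup.finiteIndex_of_finite_quotient
  · refine ⟨{ toFun := fun g => (Θ g (ω, 1)).2, map_one' := by simp, map_mul' := ?_ }, ?_⟩
    · intro x y
      have hy : (Θ (y : G) (ω, 1)).1 = ω := y.2
      show (Θ ((x * y : MulAction.stabilizer G ω) : G) (ω, 1)).2 = _
      rw [Subgroup.coe_mul, map_mul, Equiv.Perm.mul_apply]
      conv_lhs => rw [← Prod.mk.eta (p := Θ (y : G) (ω, 1)), hΘ x, hy]
    · intro g
      rfl

lemma VS.of_perm (Θ : G →* Equiv.Perm (Ω × A))
    (hΘ : ∀ g ω a, Θ g (ω, a) = ((Θ g (ω, 1)).1, (Θ g (ω, 1)).2 * a)) (ω : Ω)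
    (g : G) (n : ℕ) (hn : 0 < n) (a : A) (h : Θ (g ^ n) (ω, 1) = (ω, a)) (ha : VS a) :
    VS g := by
  obtain ⟨K, hK, hmem, f, hf⟩ := stab_hom Θ hΘ ω
  have hg : g ^ n ∈ K := by rw [hmem, h]
  refine VS.of_hom K f n hn hg ?_
  rw [hf]
  show VS (Θ (g ^ n) (ω, 1)).2
  rw [h]; exact ha

lemma VS.of_mint {a : Multiplicative ℤ} (ha : a ≠ 1) : VS a :=
  ⟨⊤, inferInstance, (⊤ : Subgroup (Multiplicative ℤ)).subtype, 1, one_pos, trivial, by
    simpa using ha⟩

end Stab

section Equi

variable {Ω A : Type*} [Group A]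

/-- Permutations of `Ω × A` commuting with right multiplication by `A`. -/
def Equi (σ : Equiv.Perm (Ω × A)) : Prop :=
  ∀ ω a b, σ (ω, a * b) = ((σ (ω, a)).1, (σ (ω, a)).2 * b)

lemma Equi.one : Equi (1 : Equiv.Perm (Ω × A)) := fun _ _ _ => rfl

lemma Equi.mul {σ τ : Equiv.Perm (Ω × A)} (hσ : Equi σ) (hτ : Equi τ) : Equi (σ * τ) := by
  intro ω a b
  rw [Equiv.Perm.mul_apply, Equiv.Perm.mul_apply, hτ, hσ, Prod.mk.eta]

lemma Equi.inv {σ : Equiv.Perm (Ω × A)} (hσ : Equi σ) : Equi σ⁻¹ := by
  intro ω a b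
  have h : σ (σ⁻¹ (ω, a)) = (ω, a) := σ.apply_symm_apply _
  rw [Equiv.Perm.inv_eq_iff_eq, hσ, Prod.mk.eta, h]

lemma Equi.apply {σ : Equiv.Perm (Ω × A)} (hσ : Equi σ) (ω : Ω) (a : A) :
    σ (ω, a) = ((σ (ω, 1)).1, (σ (ω, 1)).2 * a) := by
  rw [← hσ, one_mul]

/-- The weighted permutation `(ω, a) ↦ (P ω, κ ω * a)`. -/
def wperm (P : Equiv.Perm Ω) (κ : Ω → A) : Equiv.Perm (Ω × A) where
  toFun x := (P x.1, κ x.1 * x.2)
  invFun x := (P⁻¹ x.1, (κ (P⁻¹ x.1))⁻¹ * x.2)
  left_inv x := by simp
  right_inv x := by simp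

lemma wperm_apply (P : Equiv.Perm Ω) (κ : Ω → A) (ω : Ω) (a : A) :
    wperm P κ (ω, a) = (P ω, κ ω * a) := rfl

lemma wperm_equi (P : Equiv.Perm Ω) (κ : Ω → A) : Equi (wperm P κ) := by
  intro ω a b
  simp [wperm_apply, mul_assoc]

end Equi

section FreeGroupVS

variable {α : Type*}

lemma zmod_val_succ (n : ℕ) [NeZero n] (a : ZMod n) : (a + 1).val = (a.val + 1) % n := by
  rw [ZMod.val_add, ZMod.val_one_eq_one_mod, Nat.add_mod_mod]

/-- Letters of a word indexed cyclically. -/
def letter (L : List (α × Bool)) [NeZero L.length] (j : ZMod L.length) : α × Bool :=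
  L[j.val]'(ZMod.val_lt j)

lemma letter_cyc {L : List (α × Bool)} [NeZero L.length]
    (hL : FreeGroup.IsCyclicallyReduced L) (j : ZMod L.length)
    (h : (letter L j).1 = (letter L (j + 1)).1) : (letter L j).2 = (letter L (j + 1)).2 := by
  have hlt := ZMod.val_lt j
  by_cases hj : j.val + 1 < L.length
  · have hv : (j + 1).val = j.val + 1 := by
      rw [zmod_val_succ, Nat.mod_eq_of_lt hj]
    have h1 := hL.1
    rw [FreeGroup.IsReduced, List.isChain_iff_getElem] at h1
    have h2 := h1 j.val hj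
    simp only [letter, hv] at h ⊢
    exact h2 h
  · have hj' : j.val + 1 = L.length := by omega
    have hv : (j + 1).val = 0 := by
      rw [zmod_val_succ, hj', Nat.mod_self]
    have h1 := hL.2 (letter L j) (by
      rw [Option.mem_def, List.getLast?_eq_getElem?]
      have : L.length - 1 = j.val := by omega
      rw [this, List.getElem?_eq_getElem hlt]
      rfl) (letter L (j + 1)) (by
      rw [Option.mem_def, List.head?_eq_getElem?]
      have h0 : 0 < L.length := by omega
      rw [List.getElem?_eq_getElem h0]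
      simp only [letter, hv])
    exact h1 h

open scoped Classical in
lemma exists_perm (L : List (α × Bool)) [NeZero L.length]
    (hL : FreeGroup.IsCyclicallyReduced L) (s : α) :
    ∃ P : Equiv.Perm (ZMod L.length), ∀ a : ZMod L.length,
      (letter L (a - 1) = (s, true) → P a = a - 1) ∧ (letter L a = (s, false) → P a = a + 1) := by
  let m : ZMod L.length → ZMod L.length := fun a =>
    if letter L (a - 1) = (s, true) then a - 1 else a + 1
  let S : Set (ZMod L.length) := {a | letter L (a - 1) = (s, true) ∨ letter L a = (s, false)}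
  have key : ∀ a b : ZMod L.length, letter L (a - 1) = (s, true) → letter L b = (s, false) →
      a - 1 = b + 1 → False := by
    intro a b ha hb hab
    have h1 := letter_cyc hL b (by rw [← hab, ha, hb])
    rw [← hab, ha, hb] at h1
    simp at h1
  have key2 : ∀ a : ZMod L.length, letter L (a - 1) = (s, true) → letter L a = (s, false) →
      False := by
    intro a ha hb
    have h1 := letter_cyc hL (a - 1) (by rw [sub_add_cancel, ha, hb])
    rw [sub_add_cancel, ha, hb] at h1
    simp at h1
  have hinj : Set.InjOn m S := by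
    intro a ha b hb hab
    by_cases h1 : letter L (a - 1) = (s, true) <;> by_cases h2 : letter L (b - 1) = (s, true)
    · simp only [m, if_pos h1, if_pos h2] at hab
      exact sub_left_injective hab
    · simp only [m, if_pos h1, if_neg h2] at hab
      exact (key a b h1 (hb.resolve_left h2) hab).elim
    · simp only [m, if_neg h1, if_pos h2] at hab
      exact (key b a h2 (ha.resolve_left h1) hab.symm).elim
    · simp only [m, if_neg h1, if_neg h2] at hab
      exact add_left_injective _ hab
  have hmaps : Set.MapsTo m S (Finset.univ : Finset (ZMod L.length)) := by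
    intro a _; simp
  obtain ⟨g, hg⟩ := hmaps.exists_equiv_extend_of_card_eq (by simp) hinj
  refine ⟨g.trans (Equiv.subtypeUnivEquiv (by simp)), fun a => ⟨fun h => ?_, fun h => ?_⟩⟩
  · show ((g a : _) : ZMod L.length) = _
    rw [hg a (Or.inl h)]
    simp only [m, if_pos h]
  · show ((g a : _) : ZMod L.length) = _
    rw [hg a (Or.inr h)]
    have : letter L (a - 1) ≠ (s, true) := fun h' => key2 a h' h
    simp only [m, if_neg this]

open scoped Classical in
/-- Every nontrivial element of a free group has a power surviving in a homomorphism to `ℤ` from a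
finite-index subgroup. -/
lemma VS.of_cyclicallyReduced (L : List (α × Bool)) (hne : L ≠ [])
    (hL : FreeGroup.IsCyclicallyReduced L) : VS (FreeGroup.mk L) := by
  have : NeZero L.length := ⟨by simpa using hne⟩
  choose P hP using exists_perm L hL
  let κ : α → ZMod L.length → Multiplicative ℤ := fun s a =>
    if letter L (a - 1) = (s, true) then Multiplicative.ofAdd (-1)
    else if letter L a = (s, false) then Multiplicative.ofAdd 1 else 1
  let Θ : FreeGroup α →* Equiv.Perm (ZMod L.length × Multiplicative ℤ) :=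
    FreeGroup.lift (fun s => wperm (P s) (κ s))
  have hΘ : ∀ g, Equi (Θ g) := by
    intro g
    induction g using FreeGroup.induction_on with
    | C1 => rw [map_one]; exact Equi.one
    | of s => simp only [Θ, FreeGroup.lift_apply_of]; exact wperm_equi _ _
    | inv_of s h => rw [map_inv]; exact h.inv
    | mul x y hx hy => rw [map_mul]; exact hx.mul hy
  have step : ∀ (p : ZMod L.length) (z : Multiplicative ℤ),
      Θ (FreeGroup.mk [letter L p]) (p + 1, z) = (p, Multiplicative.ofAdd (-1) * z) := by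
    intro p z
    rcases hb : letter L p with ⟨s, b⟩
    cases b with
    | true =>
      have h1 : Θ (FreeGroup.mk [(s, true)]) = wperm (P s) (κ s) := FreeGroup.lift_apply_of
      have h2 : letter L (p + 1 - 1) = (s, true) := by rw [add_sub_cancel_right, hb]
      rw [h1, wperm_apply, (hP s (p + 1)).1 h2, add_sub_cancel_right]
      simp only [κ, if_pos h2]
    | false =>
      have h1 : Θ (FreeGroup.mk [(s, false)]) = (wperm (P s) (κ s))⁻¹ := by
        have : FreeGroup.mk [(s, false)] = (FreeGroup.of s)⁻¹ := rfl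
        rw [this, map_inv]
        congr 1
      have h3 : letter L (p - 1) ≠ (s, true) := by
        intro ha
        have h4 := letter_cyc hL (p - 1) (by rw [sub_add_cancel, ha, hb])
        rw [sub_add_cancel, ha, hb] at h4
        simp at h4
      rw [h1, Equiv.Perm.inv_eq_iff_eq, wperm_apply, (hP s p).2 hb]
      simp only [κ, if_neg h3, if_pos hb]
      rw [← mul_assoc, ← ofAdd_add]
      simp
  have main : ∀ j : ℕ, j ≤ L.length →
      Θ (FreeGroup.mk (L.drop (L.length - j))) (0, 1) =
        (-(j : ZMod L.length), Multiplicative.ofAdd (-(j : ℤ))) := by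
    intro j
    induction j with
    | zero =>
      intro _
      simp only [Nat.sub_zero, List.drop_length, Nat.cast_zero, neg_zero, ofAdd_zero]
      have : (FreeGroup.mk ([] : List (α × Bool))) = 1 := rfl
      rw [this, map_one]; rfl
    | succ j ih =>
      intro hj
      have hlt : L.length - (j + 1) < L.length := by omega
      have h1 : L.drop (L.length - (j + 1)) = L[L.length - (j + 1)] :: L.drop (L.length - j) := by
        rw [List.drop_eq_getElem_cons hlt]
        congr 2
        omega
      have h2 : (-((j + 1 : ℕ) : ZMod L.length)).val = L.length - (j + 1) := by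
        have : (-((j + 1 : ℕ) : ZMod L.length)) = ((L.length - (j + 1) : ℕ) : ZMod L.length) := by
          rw [Nat.cast_sub hj]; simp
        rw [this, ZMod.val_natCast, Nat.mod_eq_of_lt hlt]
      have h3 : L[L.length - (j + 1)] = letter L (-((j + 1 : ℕ) : ZMod L.length)) := by
        simp only [letter, h2]
      have h4 : FreeGroup.mk (L.drop (L.length - (j + 1))) =
          FreeGroup.mk [letter L (-((j + 1 : ℕ) : ZMod L.length))] *
            FreeGroup.mk (L.drop (L.length - j)) := by
        rw [FreeGroup.mul_mk, h1, h3]; rfl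
      have h5 : -(j : ZMod L.length) = -((j + 1 : ℕ) : ZMod L.length) + 1 := by
        push_cast; ring
      rw [h4, map_mul, Equiv.Perm.mul_apply, ih (by omega), h5, step]
      rw [← ofAdd_add]
      congr 2
      push_cast; ring
  have hfin := main L.length le_rfl
  rw [Nat.sub_self, List.drop_zero] at hfin
  refine VS.of_perm Θ (fun g ω a => (hΘ g).apply ω a) 0 _ 1 one_pos
    (Multiplicative.ofAdd (-(L.length : ℤ))) ?_ (VS.of_mint ?_)
  · rw [pow_one, hfin]; simp
  · intro h
    have h1 : -(L.length : ℤ) = 0 := congrArg Multiplicative.toAdd h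
    have h2 : L.length ≠ 0 := NeZero.ne _
    omega

lemma VS.conj {G : Type*} [Group G] {g : G} (h : VS g) (x : G) : VS (x * g * x⁻¹) := by
  obtain ⟨N, hN, hNf, f, n, hn, hg, hf⟩ := h.exists_normal
  have hmem : ∀ y : N, x⁻¹ * y * x ∈ N := by
    intro y
    simpa using hN.conj_mem y y.2 x⁻¹
  refine ⟨N, hNf, f.comp ⟨⟨fun y => ⟨x⁻¹ * y * x, hmem y⟩, ?_⟩, ?_⟩, n, hn, ?_, ?_⟩
  · apply Subtype.ext; simp
  · intro y z
    apply Subtype.ext
    simp only [Subgroup.coe_mul]
    group
  · rw [conj_pow]; exact hN.conj_mem _ hg x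
  · have h1 : (x * g * x⁻¹) ^ n ∈ N := by rw [conj_pow]; exact hN.conj_mem _ hg x
    have h2 : (⟨x⁻¹ * (⟨_, h1⟩ : N) * x, hmem ⟨_, h1⟩⟩ : N) = ⟨g ^ n, hg⟩ := by
      apply Subtype.ext
      show x⁻¹ * (x * g * x⁻¹) ^ n * x = g ^ n
      rw [conj_pow]; group
    show f ⟨x⁻¹ * (⟨_, h1⟩ : N) * x, hmem ⟨_, h1⟩⟩ ≠ 1
    rw [h2]; exact hf

lemma VS.freeGroup (w : FreeGroup α) (hw : w ≠ 1) : VS w := by
  classical
  have h1 := FreeGroup.reduceCyclically.conj_conjugator_reduceCyclically w.toWord
  have h2 : w = FreeGroup.mk (FreeGroup.reduceCyclically.conjugator w.toWord) *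
      FreeGroup.mk (FreeGroup.reduceCyclically w.toWord) *
      (FreeGroup.mk (FreeGroup.reduceCyclically.conjugator w.toWord))⁻¹ := by
    conv_lhs => rw [← FreeGroup.mk_toWord (x := w), ← h1]
    simp [FreeGroup.mul_mk, FreeGroup.inv_mk]
  rw [h2]
  apply VS.conj
  apply VS.of_cyclicallyReduced
  · intro h
    apply hw
    rw [h2, h]
    have : (FreeGroup.mk ([] : List (α × Bool))) = 1 := rfl
    rw [this, mul_one, mul_inv_cancel]
  · exact FreeGroup.reduceCyclically.isCyclicallyReduced FreeGroup.isReduced_toWord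

end FreeGroupVS

end Pool.Agent.Helper29
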