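import Mathlib
import Pool.Agent.Helper29.VRC.Basic
import Pool.Agent.Helper29.VRC.Free

set_option autoImplicit false

namespace Pool.Agent.Helper29

universe u

section Coord

variable {G : Type u} [Group G] (a : G) (m : ℕ) [NeZero m] (N : Subgroup G) [hN : N.Normal]

lemma mk_zpow_mul_eq (hm : ∀ k : ℤ, a ^ k ∈ N ↔ (m : ℤ) ∣ k) (k l : ℤ) (t : G) :
    ((a ^ k * t : G) : G ⧸ N) = ((a ^ l * t : G) : G ⧸ N) ↔ (m : ℤ) ∣ l - k := by
  rw [QuotientGroup.eq, ← hm]
  have h1 : (a ^ k * t)⁻¹ * (a ^ l * t) = t⁻¹ * a ^ (l - k) * t := by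
    rw [zpow_sub, mul_inv_rev]
    have : a ^ l * (a ^ k)⁻¹ = (a ^ k)⁻¹ * a ^ l := by
      rw [← zpow_neg, ← zpow_add, ← zpow_add, add_comm]
    rw [this]; group
  rw [h1]
  constructor
  · intro h
    have := hN.conj_mem _ h t
    convert this using 1
    group
  · intro h
    have := hN.conj_mem _ h t⁻¹
    simpa using this

lemma exists_coord (hm : ∀ k : ℤ, a ^ k ∈ N ↔ (m : ℤ) ∣ k) [N.FiniteIndex] :
    ∃ (X : Type u) (_ : Finite X) (τ : X → G) (e : ZMod m × X ≃ G ⧸ N),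
      ∀ j x, e (j, x) = ((a ^ j.val * τ x : G) : G ⧸ N) := by
  let X := MulAction.orbitRel.Quotient (Subgroup.zpowers a) (G ⧸ N)
  let τ : X → G := fun x => (Quotient.out x : G ⧸ N).out
  have hτ : ∀ x : X, ((τ x : G) : G ⧸ N) = Quotient.out x := fun x => QuotientGroup.out_eq' _
  have hX : ∀ (x : X) (k : ℤ), (Quotient.mk _ ((a ^ k * τ x : G) : G ⧸ N) : X) = x := by
    intro x k
    have h1 : (x : X) = Quotient.mk _ (Quotient.out x) := (Quotient.out_eq x).symm
    conv_rhs => rw [h1]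
    apply Quotient.sound
    show _ ∈ MulAction.orbit _ _
    refine ⟨⟨a ^ k, Subgroup.mem_zpowers_iff.mpr ⟨k, rfl⟩⟩, ?_⟩
    show (a ^ k : G) • (Quotient.out x : G ⧸ N) = _
    rw [← hτ]; rfl
  let e₀ : ZMod m × X → G ⧸ N := fun p => ((a ^ p.1.val * τ p.2 : G) : G ⧸ N)
  have hinj : Function.Injective e₀ := by
    rintro ⟨j, x⟩ ⟨j', x'⟩ h
    have h' : ((a ^ (j.val : ℤ) * τ x : G) : G ⧸ N) = ((a ^ (j'.val : ℤ) * τ x' : G) : G ⧸ N) := by
      rw [zpow_natCast, zpow_natCast]; exact h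
    have hx : x = x' := by
      rw [← hX x j.val, h', hX]
    subst hx
    rw [mk_zpow_mul_eq a m N hm] at h'
    have h1 := ZMod.val_lt j
    have h2 := ZMod.val_lt j'
    have h3 : ((j'.val : ℤ) - j.val) = 0 := by
      apply Int.eq_zero_of_abs_lt_dvd h'
      rw [abs_lt]; constructor <;> omega
    have h4 : j.val = j'.val := by omega
    rw [ZMod.val_injective m h4]
  have hsurj : Function.Surjective e₀ := by
    intro q
    let x : X := Quotient.mk _ q
    have h1 : (Quotient.mk _ (Quotient.out x) : X) = Quotient.mk _ q := Quotient.out_eq x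
    have h2 := Quotient.exact h1.symm
    obtain ⟨⟨y, hy⟩, h3⟩ := h2
    obtain ⟨k, rfl⟩ := Subgroup.mem_zpowers_iff.mp hy
    have h4 : ((a ^ k * τ x : G) : G ⧸ N) = q := by
      rw [← h3]
      show _ = (a ^ k : G) • (Quotient.out x : G ⧸ N)
      rw [← hτ]; rfl
    refine ⟨((k : ZMod m), x), ?_⟩
    show ((a ^ (k : ZMod m).val * τ x : G) : G ⧸ N) = q
    rw [← h4, ← zpow_natCast, mk_zpow_mul_eq a m N hm, ZMod.val_intCast]
    exact Int.dvd_self_sub_emod
  exact ⟨X, inferInstance, τ, Equiv.ofBijective e₀ ⟨hinj, hsurj⟩, fun j x => rfl⟩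

variable {a m N} {X : Type u} {τ : X → G} {e : ZMod m × X ≃ G ⧸ N}

lemma coord_gen (hm : ∀ k : ℤ, a ^ k ∈ N ↔ (m : ℤ) ∣ k)
    (he : ∀ j x, e (j, x) = ((a ^ j.val * τ x : G) : G ⧸ N)) (j : ZMod m) (x : X) :
    e.symm (a • e (j, x)) = (j + 1, x) := by
  rw [Equiv.symm_apply_eq, he, he]
  show ((a * (a ^ j.val * τ x) : G) : G ⧸ N) = _
  rw [← mul_assoc, ← pow_succ', ← zpow_natCast, ← zpow_natCast, mk_zpow_mul_eq a m N hm,
    zmod_val_succ]
  have h := Nat.mod_add_div (j.val + 1) m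
  refine ⟨-(((j.val + 1) / m : ℕ) : ℤ), ?_⟩
  have h' : (((j.val + 1) % m : ℕ) : ℤ) + m * (((j.val + 1) / m : ℕ) : ℤ) =
      ((j.val + 1 : ℕ) : ℤ) := by exact_mod_cast h
  linarith

lemma coord_sep (he : ∀ j x, e (j, x) = ((a ^ j.val * τ x : G) : G ⧸ N)) (b : G) (j : ZMod m)
    (x : X) (h : (e.symm (b • e (j, x))).2 = x) : ∃ k : ℤ, a ^ k * b ∈ N := by
  set p := e.symm (b • e (j, x)) with hp
  have h1 : e p = b • e (j, x) := by rw [hp, Equiv.apply_symm_apply]
  rw [← Prod.mk.eta (p := p), h, he, he] at h1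
  have h2 : ((a ^ p.1.val * τ x : G) : G ⧸ N) = ((b * (a ^ j.val * τ x) : G) : G ⧸ N) := h1
  rw [QuotientGroup.eq] at h2
  have h3 := hN.conj_mem _ h2 (a ^ p.1.val * τ x)
  have h4 := hN.conj_mem _ h3 (a ^ ((j.val : ℤ) - p.1.val))
  refine ⟨(j.val : ℤ) - p.1.val, ?_⟩
  convert h4 using 1
  rw [← zpow_natCast, ← zpow_natCast]
  group

/-- Extension of a functional on `N` to `G` by `1`. -/
noncomputable def extF (f : N →* Multiplicative ℤ) (g : G) : ℤ := by
  classical exact if h : g ∈ N then Multiplicative.toAdd (f ⟨g, h⟩) else 0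

omit hN in
lemma extF_mem (f : N →* Multiplicative ℤ) {g : G} (h : g ∈ N) :
    extF f g = Multiplicative.toAdd (f ⟨g, h⟩) := by
  simp [extF, h]

omit hN in
lemma extF_mul (f : N →* Multiplicative ℤ) {g g' : G} (h : g ∈ N) (h' : g' ∈ N) :
    extF f (g * g') = extF f g + extF f g' := by
  rw [extF_mem f h, extF_mem f h', extF_mem f (N.mul_mem h h'), ← toAdd_mul, ← map_mul]
  rfl

omit hN in
lemma extF_one (f : N →* Multiplicative ℤ) : extF f 1 = 0 := by
  rw [extF_mem f N.one_mem]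
  have : f ⟨1, N.one_mem⟩ = 1 := map_one f
  rw [this]; rfl

omit hN in
lemma extF_inv (f : N →* Multiplicative ℤ) {g : G} (h : g ∈ N) :
    extF f g⁻¹ = - extF f g := by
  have := extF_mul f (N.inv_mem h) h
  rw [inv_mul_cancel, extF_one] at this
  linarith

omit hN in
lemma extF_conj (f : N →* Multiplicative ℤ) {g n : G} (h : g ∈ N) (hn : n ∈ N) :
    extF f (n⁻¹ * g * n) = extF f g := by
  rw [extF_mul f (N.mul_mem (N.inv_mem hn) h) hn, extF_mul f (N.inv_mem hn) h, extF_inv f hn]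
  ring

end Coord

section Glue

open Monoid

variable {ι : Type*} [Nonempty ι] {C : Type*} [Group C] {G : ι → Type*} [∀ i, Group (G i)]

lemma glue (c : C) (hc : ∀ x, x ∈ Subgroup.zpowers c) (φ : ∀ i, C →* G i) {Ω A : Type*}
    [Group A] (P : ∀ i, G i →* Equiv.Perm Ω) (κ : ∀ i, G i → Ω → A)
    (hκ : ∀ i g g' ω, κ i (g * g') ω = κ i g (P i g' ω) * κ i g' ω)
    (hP : ∀ i j, P i (φ i c) = P j (φ j c)) (hκc : ∀ i j, κ i (φ i c) = κ j (φ j c)) :
    ∃ Θ : PushoutI φ →* Equiv.Perm (Ω × A), (∀ g, Equi (Θ g)) ∧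
      ∀ i g ω x, Θ (PushoutI.of i g) (ω, x) = (P i g ω, κ i g ω * x) := by
  let Θi : ∀ i, G i →* Equiv.Perm (Ω × A) := fun i =>
    MonoidHom.mk' (fun g => wperm (P i g) (κ i g)) (fun g g' => by
      apply Equiv.ext
      rintro ⟨ω, x⟩
      rw [Equiv.Perm.mul_apply, wperm_apply, wperm_apply, wperm_apply, map_mul,
        Equiv.Perm.mul_apply, hκ, mul_assoc])
  obtain ⟨i₀⟩ := (inferInstance : Nonempty ι)
  have hcomm : ∀ i, (Θi i).comp (φ i) = (Θi i₀).comp (φ i₀) := by
    intro i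
    have h1 : Θi i (φ i c) = Θi i₀ (φ i₀ c) := by
      show wperm _ _ = wperm _ _
      rw [hP i i₀, hκc i i₀]
    ext1 x
    obtain ⟨k, rfl⟩ := Subgroup.mem_zpowers_iff.mp (hc x)
    rw [map_zpow, map_zpow]
    congr 1
  refine ⟨PushoutI.lift Θi _ hcomm, ?_, ?_⟩
  · intro g
    induction g using PushoutI.induction_on with
    | of i g => rw [PushoutI.lift_of]; exact wperm_equi _ _
    | base h =>
      rw [PushoutI.lift_base]
      exact wperm_equi _ _
    | mul x y hx hy => rw [map_mul]; exact hx.mul hy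
  · intro i g ω x
    rw [PushoutI.lift_of]
    rfl

end Glue

section Act

variable {ι : Type*} [DecidableEq ι] {G : ι → Type u} [∀ i, Group (G i)] {a : ∀ i, G i} {m : ℕ}
  [NeZero m] {N : ∀ i, Subgroup (G i)} [hN : ∀ i, (N i).Normal] {X : ι → Type u}
  {τ : ∀ i, X i → G i} (e : ∀ i, ZMod m × X i ≃ G i ⧸ N i)

/-- The action of `G i` on `ZMod m × ∏ X`, through the coordinates `(j, x i)`. -/
def actP (i : ι) : G i →* Equiv.Perm (ZMod m × ∀ i, X i) :=
  @MulAction.toPermHom (G i) (ZMod m × ∀ i, X i) _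
    { smul := fun g ω =>
        (((e i).symm (g • e i (ω.1, ω.2 i))).1,
          Function.update ω.2 i ((e i).symm (g • e i (ω.1, ω.2 i))).2)
      one_smul := fun ω => by
        show (((e i).symm ((1 : G i) • e i (ω.1, ω.2 i))).1, _) = ω
        simp
      mul_smul := fun g g' ω => by
        show (((e i).symm ((g * g') • e i (ω.1, ω.2 i))).1,
          Function.update ω.2 i ((e i).symm ((g * g') • e i (ω.1, ω.2 i))).2) =
          (((e i).symm (g • e i (((e i).symm (g' • e i (ω.1, ω.2 i))).1,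
            Function.update ω.2 i ((e i).symm (g' • e i (ω.1, ω.2 i))).2 i))).1,
          Function.update (Function.update ω.2 i ((e i).symm (g' • e i (ω.1, ω.2 i))).2) i
            ((e i).symm (g • e i (((e i).symm (g' • e i (ω.1, ω.2 i))).1,
            Function.update ω.2 i ((e i).symm (g' • e i (ω.1, ω.2 i))).2 i))).2)
        rw [Function.update_self, Prod.mk.eta, Equiv.apply_symm_apply, Function.update_idem,
          mul_smul] }

lemma actP_apply (i : ι) (g : G i) (j : ZMod m) (x : ∀ i, X i) :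
    actP e i g (j, x) = (((e i).symm (g • e i (j, x i))).1,
      Function.update x i ((e i).symm (g • e i (j, x i))).2) := rfl

lemma actP_gen (hm : ∀ i, ∀ k : ℤ, a i ^ k ∈ N i ↔ (m : ℤ) ∣ k)
    (he : ∀ i j x, e i (j, x) = ((a i ^ j.val * τ i x : G i) : G i ⧸ N i))
    (i : ι) (j : ZMod m) (x : ∀ i, X i) : actP e i (a i) (j, x) = (j + 1, x) := by
  rw [actP_apply, coord_gen (hm i) (he i), Function.update_eq_self]

lemma actP_mem (i : ι) (g : G i) (hg : g ∈ N i) : actP e i g = 1 := by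
  apply Equiv.ext
  rintro ⟨j, x⟩
  have h : g • e i (j, x i) = e i (j, x i) := by
    induction e i (j, x i) using QuotientGroup.induction_on with
    | H z =>
      show ((g * z : G i) : G i ⧸ N i) = (z : G i ⧸ N i)
      rw [eq_comm, QuotientGroup.eq]
      have := (hN i).conj_mem g hg z⁻¹
      simpa [mul_assoc] using this
  rw [actP_apply, h, Equiv.symm_apply_apply]
  simp

lemma mem_of_actP (i : ι) (g : G i) (j : ZMod m) (x : ∀ i, X i)
    (h : actP e i g (j, x) = (j, x)) : g ∈ N i := by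
  have h1 := congrArg Prod.fst h
  have h2 := congrArg (fun p => p.2 i) h
  simp only [actP_apply, Function.update_self] at h1 h2
  have h3 : (e i).symm (g • e i (j, x i)) = (j, x i) := Prod.ext h1 h2
  rw [Equiv.symm_apply_eq] at h3
  generalize e i (j, x i) = q at h3
  induction q using QuotientGroup.induction_on with
  | H z =>
    have h4 : ((g * z : G i) : G i ⧸ N i) = (z : G i ⧸ N i) := h3
    rw [eq_comm, QuotientGroup.eq] at h4
    have := (hN i).conj_mem _ h4 z
    simpa [mul_assoc] using this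

lemma actP_snd_ne (he : ∀ i j x, e i (j, x) = ((a i ^ j.val * τ i x : G i) : G i ⧸ N i))
    (i : ι) (b : G i) (hb : ∀ k : ℤ, a i ^ k * b ∉ N i) (ω : ZMod m × ∀ i, X i) :
    (actP e i b ω).2 ≠ ω.2 := by
  obtain ⟨j, x⟩ := ω
  intro h
  have h2 : Function.update x i ((e i).symm (b • e i (j, x i))).2 i = x i := congrFun h i
  rw [Function.update_self] at h2
  obtain ⟨k, hk⟩ := coord_sep (he i) b j (x i) h2
  exact hb k hk

end Act

end Pool.Agent.Helper29
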