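import Mathlib
import Pool.Agent.Helper29.VRC.Basic
import Pool.Agent.Helper29.VRC.Free
import Pool.Agent.Helper29.VRC.Facts
import Pool.Agent.Helper29.VRC.Glue

set_option autoImplicit false

namespace Pool.Agent.Helper29

universe u

open Monoid

section Weights

variable {ι : Type*} [Nonempty ι] [DecidableEq ι] {C : Type*} [Group C] {G : ι → Type u}
  [∀ i, Group (G i)] {m : ℕ} [NeZero m] {N : ∀ i, Subgroup (G i)} [hN : ∀ i, (N i).Normal]
  {X : ι → Type u} {τ : ∀ i, X i → G i} {e : ∀ i, ZMod m × X i ≃ G i ⧸ N i}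

/-- The chosen representative at a point of `ZMod m × ∏ X`. -/
def pt (a : ∀ i, G i) (τ : ∀ i, X i → G i) (i : ι) (ω : ZMod m × ∀ i, X i) : G i :=
  a i ^ ω.1.val * τ i (ω.2 i)

lemma pt_mem {a : ∀ i, G i}
    (he : ∀ i j x, e i (j, x) = ((a i ^ j.val * τ i x : G i) : G i ⧸ N i))
    (i : ι) (g : G i) (ω : ZMod m × ∀ i, X i) :
    (pt a τ i (actP e i g ω))⁻¹ * g * pt a τ i ω ∈ N i := by
  have h1 : ∀ ω : ZMod m × ∀ i, X i, e i (ω.1, ω.2 i) = ((pt a τ i ω : G i) : G i ⧸ N i) :=
    fun ω => he i ω.1 (ω.2 i)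
  have h2 : e i ((actP e i g ω).1, (actP e i g ω).2 i) = g • e i (ω.1, ω.2 i) := by
    obtain ⟨j, x⟩ := ω
    rw [actP_apply]
    simp
  rw [h1, h1] at h2
  have h3 : ((pt a τ i (actP e i g ω) : G i) : G i ⧸ N i) = ((g * pt a τ i ω : G i) : G i ⧸ N i) :=
    h2
  rw [QuotientGroup.eq] at h3
  rwa [mul_assoc]

lemma weights (c : C) (hc : ∀ x, x ∈ Subgroup.zpowers c) (φ : ∀ i, C →* G i)
    (hm : ∀ i, ∀ k : ℤ, φ i c ^ k ∈ N i ↔ (m : ℤ) ∣ k)
    (he : ∀ i j x, e i (j, x) = ((φ i c ^ j.val * τ i x : G i) : G i ⧸ N i))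
    (f : ∀ i, N i →* Multiplicative ℤ) (Λ : ι → (∀ i, X i) → ℤ)
    (hΛ : ∀ i x y, Λ i (Function.update x i y) = Λ i x)
    (hcons : ∀ i k x, Λ i x * extF (f i) ((τ i (x i))⁻¹ * φ i c ^ m * τ i (x i)) =
      Λ k x * extF (f k) ((τ k (x k))⁻¹ * φ k c ^ m * τ k (x k))) :
    ∃ Θ : PushoutI φ →* Equiv.Perm ((ZMod m × ∀ i, X i) × Multiplicative ℤ),
      (∀ g, Equi (Θ g)) ∧ ∀ i g ω x, Θ (PushoutI.of i g) (ω, x) = (actP e i g ω,
        Multiplicative.ofAdd (Λ i ω.2 * extF (f i)
          ((pt (fun i => φ i c) τ i (actP e i g ω))⁻¹ * g * pt (fun i => φ i c) τ i ω)) * x) := by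
  refine glue c hc φ (actP e) (fun i g ω => Multiplicative.ofAdd (Λ i ω.2 * extF (f i)
          ((pt (fun i => φ i c) τ i (actP e i g ω))⁻¹ * g * pt (fun i => φ i c) τ i ω)))
          ?_ ?_ ?_
  · intro i g g' ω
    have h1 : Λ i (actP e i g' ω).2 = Λ i ω.2 := by
      obtain ⟨j, x⟩ := ω
      rw [actP_apply]; exact hΛ _ _ _
    rw [← ofAdd_add, h1, ← mul_add, ← extF_mul _ (pt_mem he i g _) (pt_mem he i g' ω)]
    congr 3
    rw [map_mul, Equiv.Perm.mul_apply]
    group
  · intro i k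
    apply Equiv.ext
    rintro ⟨j, x⟩
    rw [actP_gen (a := fun i => φ i c) e hm he, actP_gen (a := fun i => φ i c) e hm he]
  · intro i k
    funext ⟨j, x⟩
    have key : ∀ i, Multiplicative.ofAdd (Λ i x * extF (f i)
          ((pt (fun i => φ i c) τ i (actP e i (φ i c) (j, x)))⁻¹ * (φ i c) *
            pt (fun i => φ i c) τ i (j, x))) =
        if j.val + 1 < m then 1 else
          Multiplicative.ofAdd (Λ i x * extF (f i) ((τ i (x i))⁻¹ * φ i c ^ m * τ i (x i))) := by
      intro i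
      rw [actP_gen (a := fun i => φ i c) e hm he]
      have h1 : (pt (fun i => φ i c) τ i (j + 1, x))⁻¹ * (φ i c) *
            pt (fun i => φ i c) τ i (j, x) =
          (τ i (x i))⁻¹ * φ i c ^ (((j.val + 1 : ℕ) : ℤ) - ((j + 1).val : ℤ)) * τ i (x i) := by
        simp only [pt]
        rw [zpow_sub, zpow_natCast, zpow_natCast, pow_succ']
        have : (φ i c * φ i c ^ j.val) * (φ i c ^ (j + 1).val)⁻¹ =
            (φ i c ^ (j + 1).val)⁻¹ * (φ i c * φ i c ^ j.val) := by
          rw [← pow_succ', ← zpow_natCast, ← zpow_natCast, ← zpow_neg, ← zpow_add, ← zpow_add,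
            add_comm]
        rw [this]
        group
      rw [h1]
      by_cases hj : j.val + 1 < m
      · rw [if_pos hj, zmod_val_succ, Nat.mod_eq_of_lt hj]
        simp [extF_one]
      · rw [if_neg hj]
        have hj' : j.val + 1 = m := by
          have := ZMod.val_lt j
          omega
        rw [zmod_val_succ, hj', Nat.mod_self]
        simp
    show Multiplicative.ofAdd (Λ i x * _) = Multiplicative.ofAdd (Λ k x * _)
    rw [key i, key k, hcons i k]

end Weights

section Cases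

variable {ι : Type*} [Nonempty ι] [Finite ι] {C : Type*} [Group C] {G : ι → Type u}
  [∀ i, Group (G i)]

/-- The hypothesis on the order of the generator used below. -/
def OrdHyp (a : ∀ i, G i) : Prop :=
  (∀ i, ¬ IsOfFinOrder (a i)) ∨ ∃ m : ℕ, 0 < m ∧ ∀ i, orderOf (a i) = m

lemma restrict_functional {H : Type*} [Group H] (K : Subgroup H) (f : K →* Multiplicative ℤ)
    (N : Subgroup H) (hNK : N ≤ K) {x : H} (hxN : x ∈ N) :
    extF (f.comp (Subgroup.inclusion hNK)) x = Multiplicative.toAdd (f ⟨x, hNK hxN⟩) := by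
  rw [extF_mem _ hxN]; rfl

/-- Elliptic elements of infinite order. -/
lemma VS_elliptic (hG : ∀ i, VRC (G i)) (c : C) (hc : ∀ x, x ∈ Subgroup.zpowers c)
    (φ : ∀ i, C →* G i) (ho : OrdHyp (fun i => φ i c)) (i₀ : ι) (g : G i₀)
    (hg : ¬ IsOfFinOrder g) : VS (PushoutI.of i₀ g : PushoutI φ) := by
  classical
  have := Fintype.ofFinite ι
  let b : ∀ i, G i := Function.update (fun i => φ i c) i₀ g
  have hb0 : b i₀ = g := Function.update_self _ _ _
  have hb1 : ∀ i, i ≠ i₀ → b i = φ i c := fun i hi => Function.update_of_ne hi _ _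
  -- functionals
  have hbase : ∀ i, ∃ K : Subgroup (G i), K.FiniteIndex ∧ ∃ f : K →* Multiplicative ℤ,
      (¬ IsOfFinOrder (b i) → ∃ hK : b i ∈ K, f ⟨_, hK⟩ = Multiplicative.ofAdd 1) := by
    intro i
    by_cases h : IsOfFinOrder (b i)
    · exact ⟨⊤, inferInstance, 1, fun h' => absurd h h'⟩
    · obtain ⟨K, h1, h2, f, h3⟩ := (hG i (b i)).functional h
      exact ⟨K, h1, f, fun _ => ⟨h2, h3⟩⟩
  choose K hK f hf using hbase
  obtain ⟨m, N, hm0, hor, hN⟩ := compat hG (fun i => φ i c) ho (fun i => (K i).normalCore)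
    (fun i => inferInstance) (fun i => inferInstance)
  have : NeZero m := ⟨hm0.ne'⟩
  have hNn : ∀ i, (N i).Normal := fun i => (hN i).1
  have hNf : ∀ i, (N i).FiniteIndex := fun i => (hN i).2.1
  have hNK : ∀ i, N i ≤ K i := fun i => (hN i).2.2.1.trans (K i).normalCore_le
  have hNm : ∀ i, ∀ k : ℤ, φ i c ^ k ∈ N i ↔ (m : ℤ) ∣ k := fun i => (hN i).2.2.2
  choose X hXf τ e he using fun i => exists_coord (φ i c) m (N i) (hNm i)
  let F : ∀ i, N i →* Multiplicative ℤ := fun i => (f i).comp (Subgroup.inclusion (hNK i))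
  -- value on powers of `b i` lying in `N i`
  have hFb : ∀ i, ¬ IsOfFinOrder (b i) → ∀ n : ℕ, b i ^ n ∈ N i → extF (F i) (b i ^ n) = n := by
    intro i hi n hn
    obtain ⟨h1, h2⟩ := hf i hi
    rw [restrict_functional _ _ _ _ hn]
    have : (⟨b i ^ n, hNK i hn⟩ : K i) = ⟨b i, h1⟩ ^ n := rfl
    rw [this, map_pow, h2]
    simp
  -- a good point for every index
  have hpt : ∀ i, ∃ (j : ZMod m) (y : X i), φ i c ^ j.val * τ i y ∈ N i := by
    intro i
    refine ⟨((e i).symm ((1 : G i) : G i ⧸ N i)).1, ((e i).symm ((1 : G i) : G i ⧸ N i)).2, ?_⟩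
    have := he i ((e i).symm ((1 : G i) : G i ⧸ N i)).1 ((e i).symm ((1 : G i) : G i ⧸ N i)).2
    rw [Prod.mk.eta, Equiv.apply_symm_apply, QuotientGroup.eq] at this
    simpa using this
  choose j₀ y₀ hjy using hpt
  let s : ∀ i, X i → ℤ := fun i y => extF (F i) ((τ i y)⁻¹ * φ i c ^ m * τ i y)
  have hs : ∀ i, i ≠ i₀ → ¬ IsOfFinOrder (φ i c) → s i (y₀ i) ≠ 0 := by
    intro i hi hi'
    have h1 : φ i c ^ m ∈ N i := by
      have := (hNm i m).mpr dvd_rfl
      simpa using this
    have h2 : (τ i (y₀ i))⁻¹ * φ i c ^ m * τ i (y₀ i) =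
        (φ i c ^ (j₀ i).val * τ i (y₀ i))⁻¹ * φ i c ^ m * (φ i c ^ (j₀ i).val * τ i (y₀ i)) := by
      have : (φ i c ^ (j₀ i).val)⁻¹ * φ i c ^ m * φ i c ^ (j₀ i).val = φ i c ^ m := by
        have h3 : Commute (φ i c ^ (j₀ i).val) (φ i c ^ m) :=
          (Commute.refl _).pow_pow _ _
        rw [mul_assoc, ← h3.eq, ← mul_assoc, inv_mul_cancel, one_mul]
      rw [mul_inv_rev]
      calc _ = (τ i (y₀ i))⁻¹ * ((φ i c ^ (j₀ i).val)⁻¹ * φ i c ^ m * φ i c ^ (j₀ i).val) *
            τ i (y₀ i) := by rw [this]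
        _ = _ := by group
    show extF (F i) _ ≠ 0
    rw [h2, extF_conj _ h1 (hjy i)]
    have h4 := hFb i (by rw [hb1 i hi]; exact hi') m (by rw [hb1 i hi]; exact h1)
    rw [hb1 i hi] at h4
    rw [h4]
    exact_mod_cast hm0.ne'
  -- the power of `g`
  obtain ⟨n, hn0, hng⟩ : ∃ n : ℕ, 0 < n ∧ g ^ n ∈ N i₀ :=
    ⟨(N i₀).index, Nat.pos_of_ne_zero (hNf i₀).index_ne_zero, Subgroup.pow_index_mem _ _⟩
  have hFg : extF (F i₀) (g ^ n) ≠ 0 := by
    have h1 := hFb i₀ (by rw [hb0]; exact hg) n (by rw [hb0]; exact hng)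
    rw [hb0] at h1
    rw [h1]
    exact_mod_cast hn0.ne'
  -- the weights
  obtain ⟨Λ, hΛ, hcons, hΛ0⟩ : ∃ Λ : ι → (∀ i, X i) → ℤ,
      (∀ i x y, Λ i (Function.update x i y) = Λ i x) ∧
      (∀ i k x, Λ i x * s i (x i) = Λ k x * s k (x k)) ∧ Λ i₀ y₀ ≠ 0 := by
    rcases hor with hinf | hfin
    · refine ⟨fun i x => ∏ k ∈ Finset.univ.erase i, s k (x k), ?_, ?_, ?_⟩
      · intro i x y
        apply Finset.prod_congr rfl
        intro k hk
        rw [Function.update_of_ne (Finset.ne_of_mem_erase hk)]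
      · intro i k x
        rw [Finset.prod_erase_mul _ _ (Finset.mem_univ i),
          Finset.prod_erase_mul _ _ (Finset.mem_univ k)]
      · rw [Finset.prod_ne_zero_iff]
        intro k hk
        exact hs k (Finset.ne_of_mem_erase hk) (hinf k)
    · have hs0 : ∀ i y, s i y = 0 := by
        intro i y
        have h1 : φ i c ^ m = 1 := hfin i
        simp only [s]
        rw [h1, mul_one, inv_mul_cancel, extF_one]
      refine ⟨fun _ _ => 1, fun _ _ _ => rfl, fun i k x => by rw [hs0, hs0], one_ne_zero⟩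
  obtain ⟨Θ, hΘ1, hΘ2⟩ := weights c hc φ hNm he F Λ hΛ hcons
  have hfinX : Finite (ZMod m × ∀ i, X i) := inferInstance
  refine VS.of_perm Θ (fun g ω a => (hΘ1 g).apply ω a) (j₀ i₀, y₀) _ n hn0
    (Multiplicative.ofAdd (Λ i₀ y₀ * extF (F i₀) (g ^ n))) ?_ (VS.of_mint ?_)
  · rw [← map_pow, hΘ2, actP_mem e i₀ _ hng]
    have : extF (F i₀) ((pt (fun i => φ i c) τ i₀ (j₀ i₀, y₀))⁻¹ * g ^ n *
        pt (fun i => φ i c) τ i₀ (j₀ i₀, y₀)) = extF (F i₀) (g ^ n) :=
      extF_conj _ hng (hjy i₀)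
    simp only [Equiv.Perm.one_apply, mul_one]
    rw [this]
  · intro h
    have h1 : Λ i₀ y₀ * extF (F i₀) (g ^ n) = 0 := congrArg Multiplicative.toAdd h
    exact mul_ne_zero hΛ0 hFg h1

/-- Elliptic elements of finite order. -/
lemma torsion_elliptic (hG : ∀ i, VRC (G i)) (c : C) (hc : ∀ x, x ∈ Subgroup.zpowers c)
    (φ : ∀ i, C →* G i) (ho : OrdHyp (fun i => φ i c)) (i₀ : ι) (g : G i₀)
    (hg : IsOfFinOrder g) :
    IsVirtualRetract (Subgroup.zpowers (PushoutI.of i₀ g : PushoutI φ)) := by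
  classical
  have := Fintype.ofFinite ι
  have hav : ∀ i, ∃ M : Subgroup (G i), M.Normal ∧ M.FiniteIndex ∧
      ∀ h : i = i₀, ∀ k : ℤ, (h ▸ g : G i) ^ k ≠ 1 → (h ▸ g : G i) ^ k ∉ M := by
    intro i
    by_cases h : i = i₀
    · subst h
      obtain ⟨M, h1, h2, h3⟩ := (hG i).avoid (Subgroup.zpowers g : Set (G i)) hg.finite_zpowers
      exact ⟨M, h1, h2, fun _ k hk => h3 _ (Subgroup.mem_zpowers_iff.mpr ⟨k, rfl⟩) hk⟩
    · exact ⟨⊤, inferInstance, inferInstance, fun h' => absurd h' h⟩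
  choose M hM1 hM2 hM3 using hav
  obtain ⟨m, N, hm0, _, hN⟩ := compat hG (fun i => φ i c) ho M hM1 hM2
  have : NeZero m := ⟨hm0.ne'⟩
  have hNn : ∀ i, (N i).Normal := fun i => (hN i).1
  have hNf : ∀ i, (N i).FiniteIndex := fun i => (hN i).2.1
  have hNm : ∀ i, ∀ k : ℤ, φ i c ^ k ∈ N i ↔ (m : ℤ) ∣ k := fun i => (hN i).2.2.2
  choose X hXf τ e he using fun i => exists_coord (φ i c) m (N i) (hNm i)
  obtain ⟨Θ, _, hΘ2⟩ := glue c hc φ (actP e) (A := Unit) (fun _ _ _ => 1)
    (fun _ _ _ _ => rfl)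
    (fun i k => by
      apply Equiv.ext
      rintro ⟨j, x⟩
      rw [actP_gen (a := fun i => φ i c) e hNm he, actP_gen (a := fun i => φ i c) e hNm he])
    (fun _ _ => rfl)
  have : Finite (Equiv.Perm ((ZMod m × ∀ i, X i) × Unit)) := inferInstance
  refine isVirtualRetract_of_finite Θ (fun k hk => ?_)
  rw [← map_zpow] at hk ⊢
  have hne : Nonempty (∀ i, X i) := ⟨fun i => ((e i).symm ((1 : G i) : G i ⧸ N i)).2⟩
  obtain ⟨x⟩ := hne
  have h1 := hΘ2 i₀ (g ^ k) ((0 : ZMod m), x) 1
  rw [hk] at h1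
  have h2 : actP e i₀ (g ^ k) (0, x) = (0, x) := (congrArg Prod.fst h1).symm
  have h3 := mem_of_actP e i₀ (g ^ k) 0 x h2
  have h4 : g ^ k = 1 := by
    by_contra hne
    exact hM3 i₀ rfl k hne ((hN i₀).2.2.1 h3)
  rw [h4, map_one]

/-- Partial products `p_{n+k-1} ⋯ p_n`. -/
def pprod (φ : ∀ i, C →* G i) (p : ℕ → Σ i, G i) (n : ℕ) : ℕ → PushoutI φ
  | 0 => 1
  | (k + 1) => PushoutI.of (p (n + k)).1 (p (n + k)).2 * pprod φ p n k

/-- Hyperbolic elements. -/
lemma VS_hyperbolic (hG : ∀ i, VRC (G i)) (c : C) (hc : ∀ x, x ∈ Subgroup.zpowers c)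
    (φ : ∀ i, C →* G i) (ho : OrdHyp (fun i => φ i c)) (p : ℕ → Σ i, G i) (r : ℕ) (hr : 0 < r)
    (hper : ∀ n, p (n + r) = p n) (hne : ∀ n, (p (n + 1)).1 ≠ (p n).1)
    (hrange : ∀ n, (p n).2 ∉ (φ (p n).1).range) : VS (pprod φ p 0 r) := by
  classical
  have := Fintype.ofFinite ι
  have hpermod : ∀ n, p n = p (n % r) := by
    intro n
    induction n using Nat.strong_induction_on with
    | _ n ih =>
      by_cases h : n < r
      · rw [Nat.mod_eq_of_lt h]
      · have h1 : n = (n - r) + r := by omega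
        rw [h1, hper, ih (n - r) (by omega), Nat.add_mod_right]
  have hsep : ∀ i, ∃ M : Subgroup (G i), M.Normal ∧ M.FiniteIndex ∧
      ∀ b, (∃ n, p n = ⟨i, b⟩) → ∀ k : ℤ, φ i c ^ k * b ∉ M := by
    intro i
    have hfin : {b : G i | ∃ n, p n = ⟨i, b⟩}.Finite := by
      have h1 : (Set.range p).Finite := by
        apply (Set.finite_range (fun k : Fin r => p k)).subset
        rintro _ ⟨n, rfl⟩
        exact ⟨⟨n % r, Nat.mod_lt _ hr⟩, (hpermod n).symm⟩
      apply h1.preimage (f := Sigma.mk i)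
      exact sigma_mk_injective.injOn
    obtain ⟨M, h1, h2, h3⟩ := (hG i).separable_finite (φ i c) _ hfin
    refine ⟨M, h1, h2, fun b hb k => h3 b hb ?_ k⟩
    rintro ⟨k, hk⟩
    obtain ⟨n, hn⟩ := hb
    have := hrange n
    rw [hn] at this
    apply this
    exact ⟨c ^ k, by rw [map_zpow]; exact hk⟩
  choose M hM1 hM2 hM3 using hsep
  obtain ⟨m, N, hm0, _, hN⟩ := compat hG (fun i => φ i c) ho M hM1 hM2
  have : NeZero m := ⟨hm0.ne'⟩
  have hNn : ∀ i, (N i).Normal := fun i => (hN i).1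
  have hNf : ∀ i, (N i).FiniteIndex := fun i => (hN i).2.1
  have hNm : ∀ i, ∀ k : ℤ, φ i c ^ k ∈ N i ↔ (m : ℤ) ∣ k := fun i => (hN i).2.2.2
  choose X hXf τ e he using fun i => exists_coord (φ i c) m (N i) (hNm i)
  let u : (∀ i, X i) → ι → FreeGroup ((∀ i, X i) × ι) := fun x i => FreeGroup.of (x, i)
  obtain ⟨Θ, hΘ1, hΘ2⟩ := glue c hc φ (actP e)
    (fun i g ω => (u (actP e i g ω).2 i)⁻¹ * u ω.2 i)
    (fun i g g' ω => by
      rw [map_mul, Equiv.Perm.mul_apply]; group)
    (fun i k => by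
      apply Equiv.ext
      rintro ⟨j, x⟩
      rw [actP_gen (a := fun i => φ i c) e hNm he, actP_gen (a := fun i => φ i c) e hNm he])
    (fun i k => by
      funext ⟨j, x⟩
      rw [actP_gen (a := fun i => φ i c) e hNm he, actP_gen (a := fun i => φ i c) e hNm he]
      simp)
  have hne' : Nonempty (∀ i, X i) := ⟨fun i => ((e i).symm ((1 : G i) : G i ⧸ N i)).2⟩
  obtain ⟨x₀⟩ := hne'
  let ω : ℕ → ZMod m × ∀ i, X i := fun n =>
    Nat.rec (0, x₀) (fun k w => actP e (p k).1 (p k).2 w) n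
  have hω : ∀ n, ω (n + 1) = actP e (p n).1 (p n).2 (ω n) := fun _ => rfl
  have hωne : ∀ n, (ω (n + 1)).2 ≠ (ω n).2 := by
    intro n
    rw [hω]
    apply actP_snd_ne (a := fun i => φ i c) e he
    intro k hk
    exact hM3 (p n).1 (p n).2 ⟨n, rfl⟩ k ((hN (p n).1).2.2.1 hk)
  let W : ℕ → List (((∀ i, X i) × ι) × Bool) := fun n =>
    Nat.rec [] (fun k w => (((ω (k + 1)).2, (p k).1), false) :: (((ω k).2, (p k).1), true) :: w) n
  have hW : ∀ n, W (n + 1) =
    (((ω (n + 1)).2, (p n).1), false) :: (((ω n).2, (p n).1), true) :: W n := fun _ => rfl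
  have hred : ∀ n, FreeGroup.IsReduced (W (n + 1)) := by
    intro n
    induction n with
    | zero =>
      rw [hW]
      show List.IsChain _ _
      have : W 0 = [] := rfl
      rw [this]
      simp only [List.isChain_cons_cons, List.isChain_singleton, and_true]
      intro h
      exact absurd (congrArg Prod.fst h) (hωne 0)
    | succ n ih =>
      rw [hW]
      show List.IsChain _ _
      have ih' : List.IsChain (fun a b : ((∀ i, X i) × ι) × Bool => a.1 = b.1 → a.2 = b.2)
        (W (n + 1)) := ih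
      rw [hW] at ih' ⊢
      rw [List.isChain_cons_cons, List.isChain_cons_cons]
      refine ⟨?_, ?_, ih'⟩
      · intro h
        exact absurd (congrArg Prod.fst h) (hωne (n + 1))
      · intro h
        exact absurd (congrArg Prod.snd h) (hne n)
  have hmain : ∀ n, Θ (pprod φ p 0 n) (ω 0, 1) = (ω n, FreeGroup.mk (W n)) := by
    intro n
    induction n with
    | zero =>
      show Θ 1 (ω 0, 1) = _
      rw [map_one]; rfl
    | succ n ih =>
      show Θ (PushoutI.of (p (0 + n)).1 (p (0 + n)).2 * pprod φ p 0 n) (ω 0, 1) = _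
      rw [map_mul, Equiv.Perm.mul_apply, ih, zero_add, hΘ2, ← hω, hW]
      congr 1
  have hpow : ∀ k, pprod φ p 0 (r * k) = (pprod φ p 0 r) ^ k := by
    have hadd : ∀ k l, pprod φ p 0 (k + l) = pprod φ p k l * pprod φ p 0 k := by
      intro k l
      induction l with
      | zero => simp [pprod]
      | succ l ih =>
        rw [← add_assoc]
        show PushoutI.of (p (0 + (k + l))).1 (p (0 + (k + l))).2 * pprod φ p 0 (k + l) =
          (PushoutI.of (p (k + l)).1 (p (k + l)).2 * pprod φ p k l) * _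
        rw [ih, zero_add, mul_assoc]
    have hshift : ∀ k l, pprod φ p (r * k) l = pprod φ p 0 l := by
      intro k l
      induction l with
      | zero => rfl
      | succ l ih =>
        show PushoutI.of (p (r * k + l)).1 (p (r * k + l)).2 * pprod φ p (r * k) l =
          PushoutI.of (p (0 + l)).1 (p (0 + l)).2 * _
        have : p (r * k + l) = p (0 + l) := by
          rw [hpermod (r * k + l), hpermod (0 + l), Nat.mul_add_mod, zero_add]
        rw [ih, this]
    intro k
    induction k with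
    | zero => simp [pprod]
    | succ k ih => rw [Nat.mul_succ, hadd, hshift, ih, pow_succ']
  obtain ⟨K, hK, hmem, h, hh⟩ := stab_hom Θ (fun g ω a => (hΘ1 g).apply ω a) (ω 0)
  obtain ⟨k, hk0, _, hk⟩ := Subgroup.exists_pow_mem_of_index_ne_zero hK.index_ne_zero
    (pprod φ p 0 r)
  refine VS.of_hom K h k hk0 hk ?_
  rw [hh]
  show VS (Θ (pprod φ p 0 r ^ k) (ω 0, 1)).2
  rw [← hpow, hmain]
  apply VS.freeGroup
  obtain ⟨n, hn⟩ : ∃ n, r * k = n + 1 := ⟨r * k - 1, by
    have := Nat.mul_pos hr hk0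
    omega⟩
  rw [hn]
  intro h1
  have h2 := congrArg FreeGroup.toWord h1
  rw [FreeGroup.toWord_mk, (hred n).reduce_eq, FreeGroup.toWord_one, hW] at h2
  simp at h2

end Cases

section Reduction

variable {ι : Type*} {C : Type*} [Group C] {G : ι → Type u}
  [∀ i, Group (G i)] {φ : ∀ i, C →* G i}

/-- Product of a word. -/
def prodL (φ : ∀ i, C →* G i) (l : List (Σ i, G i)) : PushoutI φ :=
  (l.map (fun p => PushoutI.of p.1 p.2)).prod

lemma exists_prodL [Nonempty ι] (g : PushoutI φ) : ∃ l, prodL φ l = g := by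
  induction g using PushoutI.induction_on with
  | of i g => exact ⟨[⟨i, g⟩], by simp [prodL]⟩
  | base h =>
    obtain ⟨i⟩ := (inferInstance : Nonempty ι)
    exact ⟨[⟨i, φ i h⟩], by simp [prodL, PushoutI.of_apply_eq_base]⟩
  | mul x y hx hy =>
    obtain ⟨l, rfl⟩ := hx
    obtain ⟨l', rfl⟩ := hy
    exact ⟨l ++ l', by simp [prodL]⟩

/-- Every element of an amalgam is conjugate into a factor or is conjugate to a cyclically reduced
product. -/
lemma trichotomy [Nonempty ι] (g : PushoutI φ) :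
    (∃ (i : ι) (a : G i) (x : PushoutI φ), g = x * PushoutI.of i a * x⁻¹) ∨
    ∃ (p : ℕ → Σ i, G i) (r : ℕ) (x : PushoutI φ), 0 < r ∧ (∀ n, p (n + r) = p n) ∧
      (∀ n, (p (n + 1)).1 ≠ (p n).1) ∧ (∀ n, (p n).2 ∉ (φ (p n).1).range) ∧
      g = x * pprod φ p 0 r * x⁻¹ := by
  classical
  have hex : ∃ n : ℕ, ∃ l : List (Σ i, G i), l.length = n ∧
      ∃ x : PushoutI φ, g = x * prodL φ l * x⁻¹ := by
    obtain ⟨l, hl⟩ := exists_prodL g
    exact ⟨l.length, l, rfl, 1, by rw [hl]; simp⟩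
  obtain ⟨l, hlen, x, hx⟩ := Nat.find_spec hex
  have hmin : ∀ l' : List (Σ i, G i), (∃ x : PushoutI φ, g = x * prodL φ l' * x⁻¹) →
      l.length ≤ l'.length := by
    intro l' hl'
    rw [hlen]
    exact Nat.find_min' hex ⟨l', rfl, hl'⟩
  -- rotated words
  have hrot : ∀ l₁ l₂ : List (Σ i, G i), l = l₁ ++ l₂ →
      ∃ y : PushoutI φ, g = y * prodL φ (l₂ ++ l₁) * y⁻¹ := by
    intro l₁ l₂ h
    refine ⟨x * prodL φ l₁, ?_⟩
    rw [hx, h]
    simp only [prodL, List.map_append, List.prod_append]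
    group
  -- a word of minimal length has no mergeable neighbours
  have hmerge : ∀ (q q' : Σ i, G i) (t : List (Σ i, G i)), t.length + 2 = l.length →
      (∃ y : PushoutI φ, g = y * prodL φ (t ++ [q, q']) * y⁻¹) →
      q.1 ≠ q'.1 ∧ q'.2 ∉ (φ q'.1).range := by
    intro q q' t ht ⟨y, hy⟩
    constructor
    · intro h
      obtain ⟨i, a⟩ := q
      obtain ⟨i', a'⟩ := q'
      obtain rfl : i = i' := h
      have := hmin (t ++ [⟨i, a * a'⟩]) ⟨y, by rw [hy]; simp [prodL, mul_assoc]⟩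
      simp at this; omega
    · rintro ⟨b, hb⟩
      obtain ⟨i, a⟩ := q
      obtain ⟨i', a'⟩ := q'
      have hb' : φ i' b = a' := hb
      have h1 : (PushoutI.of i' a' : PushoutI φ) = PushoutI.of i (φ i b) := by
        rw [← hb', PushoutI.of_apply_eq_base, PushoutI.of_apply_eq_base]
      have := hmin (t ++ [⟨i, a * φ i b⟩]) ⟨y, by rw [hy]; simp [prodL, h1, mul_assoc]⟩
      simp at this; omega
  by_cases hlt : l.length < 2
  · left
    rcases l with _ | ⟨q, t⟩
    · obtain ⟨i⟩ := (inferInstance : Nonempty ι)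
      exact ⟨i, 1, x, by rw [hx]; simp [prodL]⟩
    · have : t = [] := by
        rw [← List.length_eq_zero_iff]
        rw [List.length_cons] at hlt
        omega
      subst this
      exact ⟨q.1, q.2, x, by rw [hx]; simp [prodL]⟩
  · right
    push Not at hlt
    set r := l.length with hr
    have hr0 : 0 < r := by omega
    -- `p n` is the letter at position `n` counted from the right, cyclically
    let p : ℕ → Σ i, G i := fun n => l.reverse[n % r]'(by
      rw [List.length_reverse]; exact Nat.mod_lt _ hr0)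
    have hpper : ∀ n, p (n + r) = p n := by
      intro n
      simp only [p, Nat.add_mod_right]
    let wl : ℕ → ℕ → List (Σ i, G i) := fun n k => Nat.rec [] (fun k t => p (n + k) :: t) k
    have hwl : ∀ n k, wl n (k + 1) = p (n + k) :: wl n k := fun _ _ => rfl
    have hwlen : ∀ n k, (wl n k).length = k := by
      intro n k
      induction k with
      | zero => rfl
      | succ k ih => rw [hwl, List.length_cons, ih]
    have hwprod : ∀ n k, prodL φ (wl n k) = pprod φ p n k := by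
      intro n k
      induction k with
      | zero => rfl
      | succ k ih =>
        rw [hwl]
        show _ = PushoutI.of (p (n + k)).1 (p (n + k)).2 * pprod φ p n k
        rw [← ih]
        simp [prodL]
    have hwl' : ∀ n k, wl n (k + 1) = wl (n + 1) k ++ [p n] := by
      intro n k
      induction k with
      | zero => rfl
      | succ k ih =>
        rw [hwl, ih, hwl (n + 1) k]
        have : n + (k + 1) = n + 1 + k := by ring
        rw [this]; rfl
    have hw0 : ∀ k, k ≤ r → wl 0 k = (l.reverse.take k).reverse := by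
      intro k
      induction k with
      | zero => intro _; rfl
      | succ k ih =>
        intro hk
        have hk' : k < l.reverse.length := by rw [List.length_reverse]; omega
        rw [hwl, ih (by omega), List.take_succ_eq_append_getElem hk', List.reverse_append]
        have : p (0 + k) = l.reverse[k] := by
          simp only [p, zero_add, Nat.mod_eq_of_lt (show k < r by omega)]
        rw [this]; rfl
    have hwr : wl 0 r = l := by
      rw [hw0 r le_rfl, List.take_of_length_le (by rw [List.length_reverse]), List.reverse_reverse]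
    have hP0 : g = x * pprod φ p 0 r * x⁻¹ := by rw [← hwprod, hwr, hx]
    have hPn : ∀ n, ∃ y : PushoutI φ, g = y * pprod φ p n r * y⁻¹ := by
      intro n
      induction n with
      | zero => exact ⟨x, hP0⟩
      | succ n ih =>
        obtain ⟨y, hy⟩ := ih
        have h1 : PushoutI.of (p (n + r)).1 (p (n + r)).2 * pprod φ p n r =
            pprod φ p (n + 1) r * PushoutI.of (p n).1 (p n).2 := by
          rw [← hwprod, ← hwprod]
          have h2 := hwl n r
          rw [hwl'] at h2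
          have h3 := congrArg (prodL φ) h2
          simp only [prodL, List.map_append, List.prod_append, List.map_cons, List.prod_cons,
            List.map_nil, List.prod_nil, mul_one] at h3 ⊢
          exact h3.symm
        rw [hpper] at h1
        refine ⟨y * (PushoutI.of (p n).1 (p n).2)⁻¹, ?_⟩
        have h4 : pprod φ p (n + 1) r = PushoutI.of (p n).1 (p n).2 * pprod φ p n r *
            (PushoutI.of (p n).1 (p n).2)⁻¹ := by
          rw [h1]; group
        rw [h4, hy]
        group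
    obtain ⟨r', hr'⟩ : ∃ r', r = r' + 2 := ⟨r - 2, by omega⟩
    have hfinal : ∀ n, (p (n + 1)).1 ≠ (p n).1 ∧ (p n).2 ∉ (φ (p n).1).range := by
      intro n
      obtain ⟨y, hy⟩ := hPn n
      refine hmerge (p (n + 1)) (p n) (wl (n + 2) r') (by rw [hwlen]; omega) ⟨y, ?_⟩
      rw [hy, ← hwprod]
      congr 3
      rw [hr', hwl', hwl']
      simp
    exact ⟨p, r, x, hr0, hpper, fun n => (hfinal n).1, fun n => (hfinal n).2, hP0⟩

end Reduction

/-- **Main theorem.** The class of groups with (VRC) is closed under amalgamated products over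
cyclic groups. -/
theorem VRC_pushout {ι : Type*} [Nonempty ι] [Finite ι] {C : Type*} [Group C] [IsCyclic C]
    {G : ι → Type u} [∀ i, Group (G i)] (φ : ∀ i, C →* G i)
    (hφ : ∀ i, Function.Injective (φ i)) (hG : ∀ i, VRC (G i)) : VRC (PushoutI φ) := by
  obtain ⟨c, hc⟩ := IsCyclic.exists_generator (α := C)
  have ho : OrdHyp (fun i => φ i c) := by
    by_cases h : IsOfFinOrder c
    · right
      exact ⟨orderOf c, h.orderOf_pos, fun i => orderOf_injective (φ i) (hφ i) c⟩
    · left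
      intro i hi
      exact h ((hφ i).isOfFinOrder_iff.mp hi)
  intro g
  rcases trichotomy g with ⟨i, a, x, rfl⟩ | ⟨p, r, x, hr, hper, hne, hrange, rfl⟩
  · apply IsVirtualRetract.conj
    by_cases ha : IsOfFinOrder a
    · exact torsion_elliptic hG c hc φ ho i a ha
    · exact (VS_elliptic hG c hc φ ho i a ha).isVirtualRetract
  · apply IsVirtualRetract.conj
    exact (VS_hyperbolic hG c hc φ ho p r hr hper hne hrange).isVirtualRetract

end Pool.Agent.Helper29
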